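import Pool.Agent.Helper36.CV.StmtsQ

set_option autoImplicit false

namespace Pool.Agent.Helper37.CV.Q7

open Complex Filter Topology MeasureTheory Set
open Pool.Agent.Helper36.CV

/-! Part A: the square root, the arcsine averages, an auxiliary integral. -/

/-- square root in polar form -/
lemma sqrt_polar (w : ℂ) (hw : w ≠ 0) :
    w ^ (1 / 2 : ℂ) = ((Real.sqrt ‖w‖ : ℝ) : ℂ) * Complex.exp (((w.arg / 2 : ℝ) : ℂ) * I) := by
  have hp : 0 < ‖w‖ := norm_pos_iff.mpr hw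
  rw [Complex.cpow_def_of_ne_zero hw, Complex.log]
  have e1 : (((Real.log ‖w‖ : ℝ) : ℂ) + (w.arg : ℂ) * I) * (1 / 2) =
      ((Real.log ‖w‖ / 2 : ℝ) : ℂ) + ((w.arg / 2 : ℝ) : ℂ) * I := by
    push_cast; ring
  rw [e1, Complex.exp_add, ← Complex.ofReal_exp]
  congr 2
  rw [Real.sqrt_eq_rpow, Real.rpow_def_of_pos hp]
  congr 1; ring

/-- the argument of qc -/
noncomputable def be (a b : ℝ) (z : ℂ) : ℝ := ((z - a).arg + (z - b).arg) / 2

lemma sub_ne {z : ℂ} (hz : z ∈ Uo) (a : ℝ) : z - (a : ℂ) ≠ 0 := by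
  intro h
  have h2 : (z - (a : ℂ)).im = 0 := by rw [h]; rfl
  simp only [Complex.sub_im, Complex.ofReal_im, sub_zero] at h2
  have : 0 < z.im := hz
  linarith

lemma qc_polar (a b : ℝ) {z : ℂ} (hz : z ∈ Uo) :
    qc a b z = ((Real.sqrt (‖z - a‖ * ‖z - b‖) : ℝ) : ℂ) * Complex.exp ((be a b z : ℂ) * I) := by
  unfold qc be
  rw [sqrt_polar _ (sub_ne hz a), sqrt_polar _ (sub_ne hz b), Real.sqrt_mul (norm_nonneg _)]
  have e : (((((z - a).arg + (z - b).arg) / 2 : ℝ) : ℂ)) * I =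
      (((z - a).arg / 2 : ℝ) : ℂ) * I + (((z - b).arg / 2 : ℝ) : ℂ) * I := by
    push_cast; ring
  rw [e, Complex.exp_add]
  push_cast
  ring

lemma qc_norm (a b : ℝ) {z : ℂ} (hz : z ∈ Uo) :
    ‖qc a b z‖ = Real.sqrt (‖z - a‖ * ‖z - b‖) := by
  rw [qc_polar a b hz, norm_mul, Complex.norm_exp_ofReal_mul_I, mul_one, Complex.norm_real,
    Real.norm_of_nonneg (Real.sqrt_nonneg _)]

lemma qc_ne (a b : ℝ) {z : ℂ} (hz : z ∈ Uo) : qc a b z ≠ 0 := by
  rw [← norm_pos_iff, qc_norm a b hz]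
  apply Real.sqrt_pos.mpr
  exact mul_pos (norm_pos_iff.mpr (sub_ne hz a)) (norm_pos_iff.mpr (sub_ne hz b))

/-- polar form of w when w / qc is known -/
lemma w_polar (a b : ℝ) {z w : ℂ} (hz : z ∈ Uo) :
    w = ((‖w‖ : ℝ) : ℂ) * Complex.exp (((w / qc a b z).arg + be a b z : ℝ) * I) := by
  have h1 : w = w / qc a b z * qc a b z := by
    rw [div_mul_cancel₀ _ (qc_ne a b hz)]
  have h2 : w / qc a b z = ((‖w / qc a b z‖ : ℝ) : ℂ) * Complex.exp (((w / qc a b z).arg : ℂ) * I) :=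
    (Complex.norm_mul_exp_arg_mul_I _).symm
  have h3 : ‖w‖ = ‖w / qc a b z‖ * Real.sqrt (‖z - a‖ * ‖z - b‖) := by
    rw [← qc_norm a b hz, ← norm_mul, ← h1]
  rw [h3]
  nth_rewrite 1 [h1]
  nth_rewrite 1 [h2]
  rw [qc_polar a b hz]
  push_cast
  rw [add_mul, Complex.exp_add]
  ring

lemma w_im (a b : ℝ) {z w : ℂ} (hz : z ∈ Uo) :
    w.im = ‖w‖ * Real.sin ((w / qc a b z).arg + be a b z) := by
  have h := congrArg Complex.im (w_polar a b hz (w := w))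
  rw [Complex.im_ofReal_mul, Complex.exp_ofReal_mul_I_im] at h
  exact h

lemma w_re (a b : ℝ) {z w : ℂ} (hz : z ∈ Uo) :
    w.re = ‖w‖ * Real.cos ((w / qc a b z).arg + be a b z) := by
  have h := congrArg Complex.re (w_polar a b hz (w := w))
  rw [Complex.re_ofReal_mul, Complex.exp_ofReal_mul_I_re] at h
  exact h

lemma w_norm (a b : ℝ) {z w : ℂ} (hz : z ∈ Uo) :
    ‖w‖ = ‖w / qc a b z‖ * Real.sqrt (‖z - a‖ * ‖z - b‖) := by
  rw [← qc_norm a b hz, ← norm_mul, div_mul_cancel₀ _ (qc_ne a b hz)]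

/-- arguments in the first quadrant -/
lemma arg_small {w : ℂ} (h1 : 0 < w.re) (h2 : 0 ≤ w.im) (η : ℝ) (h3 : w.im ≤ η * w.re) :
    0 ≤ w.arg ∧ w.arg ≤ 2 * η := by
  have a0 : 0 ≤ w.arg := Complex.arg_nonneg_iff.mpr h2
  have a1 : w.arg ≤ Real.pi / 2 := by
    have := Complex.abs_arg_le_pi_div_two_iff.mpr h1.le
    exact (le_abs_self _).trans this
  refine ⟨a0, ?_⟩
  have hne : w ≠ 0 := by
    intro h; rw [h] at h1; simp at h1
  have hn : 0 < ‖w‖ := norm_pos_iff.mpr hne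
  have h4 := Real.mul_le_sin a0 a1
  have h5 : Real.sin w.arg = w.im / ‖w‖ := Complex.sin_arg w
  have h6 : w.re ≤ ‖w‖ := (le_abs_self _).trans (Complex.abs_re_le_norm w)
  have hη : 0 ≤ η := by
    by_contra hh
    push Not at hh
    nlinarith
  have h7 : w.im / ‖w‖ ≤ η := by
    rw [div_le_iff₀ hn]
    nlinarith
  have hpi : Real.pi < 4 := by linarith [Real.pi_lt_d2]
  have hpi0 := Real.pi_pos
  have h8 : 2 / Real.pi * w.arg ≤ η := by linarith [h5 ▸ h4]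
  have h9 : w.arg = Real.pi / 2 * (2 / Real.pi * w.arg) := by
    field_simp
  rw [h9]
  have h10 : Real.pi / 2 * (2 / Real.pi * w.arg) ≤ Real.pi / 2 * η :=
    mul_le_mul_of_nonneg_left h8 (by positivity)
  nlinarith

end Pool.Agent.Helper37.CV.Q7
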