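import Pool.Agent.Helper36.CV.StmtsE
import Pool.Agent.Helper37.CV.Q7a

set_option autoImplicit false

namespace Pool.Agent.Helper37.CV.E3

open Complex Filter Topology MeasureTheory Set
open Pool.Agent.Helper36.CV Pool.Agent.Helper37.CV.Q7

noncomputable section

/-! polar form at an edge -/

lemma s_ne (c : ℝ) {z : ℂ} (hz : z ∈ Uo) : (z - (c : ℂ)) ^ (1 / 2 : ℂ) ≠ 0 := by
  rw [Complex.cpow_def_of_ne_zero (sub_ne hz c)]
  exact Complex.exp_ne_zero _

lemma s_norm (c : ℝ) {z : ℂ} (hz : z ∈ Uo) : ‖(z - (c : ℂ)) ^ (1 / 2 : ℂ)‖ = Real.sqrt ‖z - (c : ℂ)‖ := by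
  rw [sqrt_polar _ (sub_ne hz c), norm_mul, Complex.norm_exp_ofReal_mul_I, mul_one, Complex.norm_real,
    Real.norm_of_nonneg (Real.sqrt_nonneg _)]

lemma e_norm (c : ℝ) {z w : ℂ} (hz : z ∈ Uo) :
    ‖w‖ = ‖w / (z - (c : ℂ)) ^ (1 / 2 : ℂ)‖ * Real.sqrt ‖z - (c : ℂ)‖ := by
  rw [← s_norm c hz, ← norm_mul, div_mul_cancel₀ _ (s_ne c hz)]

lemma e_polar (c : ℝ) {z w : ℂ} (hz : z ∈ Uo) :
    w = ((‖w‖ : ℝ) : ℂ) * Complex.exp (((w / (z - (c : ℂ)) ^ (1 / 2 : ℂ)).arg + (z - (c : ℂ)).arg / 2 : ℝ) * I) := by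
  have h1 : w = w / (z - (c : ℂ)) ^ (1 / 2 : ℂ) * (z - (c : ℂ)) ^ (1 / 2 : ℂ) := by
    rw [div_mul_cancel₀ _ (s_ne c hz)]
  have h2 : w / (z - (c : ℂ)) ^ (1 / 2 : ℂ) = ((‖w / (z - (c : ℂ)) ^ (1 / 2 : ℂ)‖ : ℝ) : ℂ) *
      Complex.exp (((w / (z - (c : ℂ)) ^ (1 / 2 : ℂ)).arg : ℂ) * I) :=
    (Complex.norm_mul_exp_arg_mul_I _).symm
  rw [e_norm c hz (w := w)]
  set G := w / (z - (c : ℂ)) ^ (1 / 2 : ℂ) with hG
  have h3 : w = G * (z - (c : ℂ)) ^ (1 / 2 : ℂ) := h1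
  rw [h3]
  nth_rewrite 1 [h2]
  rw [sqrt_polar _ (sub_ne hz c)]
  push_cast
  rw [add_mul, Complex.exp_add]
  ring

lemma e_im (c : ℝ) {z w : ℂ} (hz : z ∈ Uo) :
    w.im = ‖w‖ * Real.sin ((w / (z - (c : ℂ)) ^ (1 / 2 : ℂ)).arg + (z - (c : ℂ)).arg / 2) := by
  have h := congrArg Complex.im (e_polar c hz (w := w))
  rw [Complex.im_ofReal_mul, Complex.exp_ofReal_mul_I_im] at h
  exact h

lemma e_re (c : ℝ) {z w : ℂ} (hz : z ∈ Uo) :
    w.re = ‖w‖ * Real.cos ((w / (z - (c : ℂ)) ^ (1 / 2 : ℂ)).arg + (z - (c : ℂ)).arg / 2) := by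
  have h := congrArg Complex.re (e_polar c hz (w := w))
  rw [Complex.re_ofReal_mul, Complex.exp_ofReal_mul_I_re] at h
  exact h

/-! norms in Z[gam] -/

lemma sqrt5_sq : Real.sqrt 5 ^ 2 = 5 := Real.sq_sqrt (by norm_num)

/-- the norm of a nonzero element of Z[gam] has modulus >= 1 -/
lemma norm_ge (a b : ℤ) (h : (a : ℝ) + b * gam ≠ 0) :
    1 ≤ |(a : ℝ) + b * gam| * |(a : ℝ) + b * gam - Real.sqrt 5 * b| := by
  have h5 := sqrt5_sq
  have hprod : ((a : ℝ) + b * gam) * ((a : ℝ) + b * gam - Real.sqrt 5 * b) = ((a ^ 2 - a * b - b ^ 2 : ℤ) : ℝ) := by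
    unfold gam
    push_cast
    nlinarith [h5]
  rw [← abs_mul, hprod, ← Int.cast_abs]
  have hne : (a ^ 2 - a * b - b ^ 2 : ℤ) ≠ 0 := by
    intro h0
    rw [h0] at hprod
    simp only [Int.cast_zero, mul_eq_zero] at hprod
    rcases hprod with h1 | h1
    · exact h h1
    · -- a + b gam = sqrt 5 b
      have hirr : Irrational (Real.sqrt 5) := by
        have := Nat.Prime.irrational_sqrt (p := 5) (by norm_num)
        exact_mod_cast this
      by_cases hb : b = 0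
      · subst hb
        simp only [Int.cast_zero, zero_mul, add_zero, mul_zero, sub_zero] at h1 h
        exact h h1
      · have h2 : (2 * a - b : ℝ) = Real.sqrt 5 * b := by
          unfold gam at h1
          linarith
        have hb' : (b : ℝ) ≠ 0 := by exact_mod_cast hb
        have h3 : Real.sqrt 5 = (((2 * a - b : ℤ) / (b : ℤ) : ℚ) : ℝ) := by
          push_cast
          rw [eq_div_iff hb']
          linarith
        exact hirr ⟨_, h3.symm⟩
  have h1 : (1 : ℤ) ≤ |a ^ 2 - a * b - b ^ 2| := Int.one_le_abs hne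
  exact_mod_cast h1

section
variable {ε Hm Hp : ℝ} {C : Set ℝ} {cd : CD Hm Hp C}

/-- first part -/
lemma part1 (hP2 : ST_P2) (hE1 : ST_E1) (hPar : Par ε Hm Hp) (hε : ε ≤ 1 / 10 ^ 4) (e : Edge cd) (R : ℝ)
    (hLW : e.LW R) (t : ℝ) (ht1 : e.c < t) (ht2 : t ≤ e.c + R) :
    0 < Nf cd t ∧ Nf cd t < 1 ∧ vf cd t ≤ ε * (Nf cd t - e.N) ∧
    ∀ W : Gap cd, t ∈ Icc W.a W.b → 99 / 100 ≤ |W.mu| * (W.N - e.N) := by
  obtain ⟨he, hHm, hpar⟩ := hPar
  obtain ⟨p1, p2, p3, p4, p5, p6, p7, p8, p9, p10, p11, p12⟩ := hP2 Hm Hp C cd hHm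
  obtain ⟨e1, e2, e3, e4, e5⟩ := hE1 Hm Hp C cd hHm
  have hd := e3 e t ht1
  have hL := hLW t ht1.le ht2
  have hN0 : 0 ≤ e.N := (p1 e.c).2.1
  obtain ⟨v0, n0, n1, vC⟩ := p1 t
  set dN := Nf cd t - e.N with hdN
  have hdN0 : 0 < dN := by rw [hdN]; linarith
  have hdN1 : dN ≤ 1 := by rw [hdN]; linarith
  have hmu0 := abs_nonneg e.mu
  have hNe : e.N = e.n + e.m * gam := e.lab
  have hlt1 : Nf cd t < 1 := by
    rcases lt_or_eq_of_le n1 with h | h
    · exact h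
    · exfalso
      have h1 : (((1 - e.n : ℤ) : ℝ) + ((-e.m : ℤ) : ℝ) * gam) = dN := by
        rw [hdN, h, hNe]; push_cast; ring
      have h2 := norm_ge (1 - e.n) (-e.m) (by rw [h1]; exact hdN0.ne')
      rw [h1, abs_of_pos hdN0] at h2
      have h3 : |dN - Real.sqrt 5 * ((-e.m : ℤ) : ℝ)| ≤ dN + |e.mu| := by
        have : dN - Real.sqrt 5 * ((-e.m : ℤ) : ℝ) = dN + e.mu := by
          unfold Edge.mu; push_cast; ring
        rw [this]
        refine (abs_add_le _ _).trans ?_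
        rw [abs_of_pos hdN0]
      have h4 : dN * |dN - Real.sqrt 5 * ((-e.m : ℤ) : ℝ)| ≤ dN * (|e.mu| + 1) :=
        mul_le_mul_of_nonneg_left (by linarith) hdN0.le
      linarith
  have hW : ∀ W : Gap cd, t ∈ Icc W.a W.b → 999 / 1000 ≤ |W.mu| * dN ∧ W.N - e.N = dN := by
    intro W htW
    have hWN : Nf cd t = W.N := W.lab t htW
    have h0 : W.N - e.N = dN := by rw [hdN, hWN]
    refine ⟨?_, h0⟩
    have h1 : (((W.n - e.n : ℤ) : ℝ) + ((W.m - e.m : ℤ) : ℝ) * gam) = dN := by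
      rw [← h0, hNe]; unfold Gap.N; push_cast; ring
    have h2 := norm_ge (W.n - e.n) (W.m - e.m) (by rw [h1]; exact hdN0.ne')
    rw [h1, abs_of_pos hdN0] at h2
    have h3 : |dN - Real.sqrt 5 * ((W.m - e.m : ℤ) : ℝ)| ≤ dN + |W.mu| + |e.mu| := by
      have : dN - Real.sqrt 5 * ((W.m - e.m : ℤ) : ℝ) = (dN + -W.mu) + e.mu := by
        unfold Edge.mu Gap.mu; push_cast; ring
      rw [this]
      refine (abs_add_le _ _).trans ?_
      have := abs_add_le dN (-W.mu)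
      rw [abs_neg, abs_of_pos hdN0] at this
      linarith
    have h4 : dN * |dN - Real.sqrt 5 * ((W.m - e.m : ℤ) : ℝ)| ≤ dN * ((|e.mu| + 1) + |W.mu|) :=
      mul_le_mul_of_nonneg_left (by linarith) hdN0.le
    nlinarith
  refine ⟨by linarith, hlt1, ?_, ?_⟩
  · by_cases htC : t ∈ C
    · rw [vC.mp htC]; positivity
    · obtain ⟨W, hWa, hWb⟩ := p2 t htC (by linarith) hlt1
      have htW : t ∈ Icc W.a W.b := ⟨hWa.le, hWb.le⟩
      obtain ⟨h1, h2⟩ := hW W htW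
      have h3 := (p4 W).2.2.2.1 t htW
      have h4 : |W.mu| * vf cd t ≤ ε * (1 + 98 * ε) / 4 := by
        have : |W.mu| = Real.sqrt 5 * |(W.m : ℝ)| := by
          unfold Gap.mu
          rw [abs_mul, abs_of_nonneg (Real.sqrt_nonneg 5)]
        rw [this, mul_assoc]
        have := mul_le_mul_of_nonneg_left h3 (Real.sqrt_nonneg 5)
        linarith
      have h5 : |W.mu| * dN * vf cd t ≤ ε * (1 + 98 * ε) / 4 * dN := by
        have := mul_le_mul_of_nonneg_right h4 hdN0.le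
        linarith
      have h6 : 999 / 1000 * vf cd t ≤ |W.mu| * dN * vf cd t := mul_le_mul_of_nonneg_right h1 v0
      have h7 : ε * (1 + 98 * ε) / 4 * dN ≤ (ε * dN) / 2 := by
        have h8 : 0 < ε * dN := mul_pos he hdN0
        nlinarith
      have h9 : 0 < ε * dN := mul_pos he hdN0
      linarith
  · intro W htW
    obtain ⟨h1, h2⟩ := hW W htW
    rw [h2]; linarith

theorem st_E3 (hP1 : ST_P1) (hP2 : ST_P2) (hQ2 : ST_Q2) (hE1 : ST_E1) (hE2 : ST_E2) : ST_E3 := by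
  obtain ⟨K2, hK2, hE2⟩ := hE2
  have hexp : 1 ≤ Real.exp (2 * K2) := Real.one_le_exp (by linarith)
  refine ⟨1804 * Real.exp (2 * K2), 1 / 10 ^ 4, by linarith, by norm_num, ?_⟩
  intro ε Hm Hp C cd hPar hε e R hR hRd hLW
  have hp1 := part1 hP2 hE1 hPar hε e R hLW
  refine ⟨fun t h1 h2 => hp1 t h1 h2, ?_⟩
  intro δ hδ hδR
  obtain ⟨he, hHm, hpar⟩ := hPar
  obtain ⟨r1, r2, r3, r4, r5, r6⟩ := hP1 Hm Hp C cd
  obtain ⟨p1, p2, p3, p4, p5, p6, p7, p8, p9, p10, p11, p12⟩ := hP2 Hm Hp C cd hHm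
  have hv3 : ∀ t : ℝ, e.c < t → t ≤ e.c + R → vf cd t ≤ 3 * ε * (Nf cd t - e.N) := by
    intro t h1 h2
    obtain ⟨a1, a2, a3, a4⟩ := hp1 t h1 h2
    have h0 := (p1 t).1
    have : 0 ≤ ε * (Nf cd t - e.N) := h0.trans a3
    linarith
  obtain ⟨g1, g2⟩ := hE2 ε Hm Hp C cd hHm he (by linarith) e R hR hRd hv3
  set x := e.c + δ with hx
  set d := δ / 2 with hd
  have hd0 : 0 < d := by rw [hd]; linarith
  set z : ℂ := ((x : ℝ) : ℂ) + ((d : ℝ) : ℂ) * I with hz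
  set z2 : ℂ := ((x : ℝ) : ℂ) + ((δ : ℝ) : ℂ) * I with hz2
  have hzi : z.im = d := by simp [hz]
  have hz2i : z2.im = δ := by simp [hz2]
  have hzU : z ∈ Uo := by show 0 < z.im; rw [hzi]; exact hd0
  have hz2U : z2 ∈ Uo := by show 0 < z2.im; rw [hz2i]; exact hδ
  have hzcre : (z - (e.c : ℂ)).re = δ := by simp [hz, hx]
  have hzcim : (z - (e.c : ℂ)).im = d := by simp [hz]
  have hz2cre : (z2 - (e.c : ℂ)).re = δ := by simp [hz2, hx]
  have hz2cim : (z2 - (e.c : ℂ)).im = δ := by simp [hz2]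
  have hzsq : ‖z - (e.c : ℂ)‖ ^ 2 = δ ^ 2 + d ^ 2 := by
    rw [Complex.sq_norm, Complex.normSq_apply, hzcre, hzcim]; ring
  have hzle : ‖z - (e.c : ℂ)‖ ≤ 112 / 100 * δ := by
    rw [← pow_le_pow_iff_left₀ (norm_nonneg _) (by positivity) (by norm_num : (2:ℕ) ≠ 0), hzsq, hd]
    nlinarith [sq_nonneg δ, hδ]
  have hz2le : ‖z2 - (e.c : ℂ)‖ ≤ 2 * δ := by
    have := Complex.norm_le_abs_re_add_abs_im (z2 - (e.c : ℂ))
    rw [hz2cre, hz2cim, abs_of_pos hδ] at this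
    linarith
  have hzn : 0 < ‖z - (e.c : ℂ)‖ := norm_pos_iff.mpr (sub_ne hzU e.c)
  -- the argument
  have hα := g1 z hzU (by linarith)
  have hα2 : |(e.g z).arg| ≤ 12 / 1000 := by
    have : 2 * ‖z - (e.c : ℂ)‖ / R ≤ 112 / 10000 := by
      rw [div_le_iff₀ hR]; linarith
    linarith
  have hb0 : 0 ≤ (z - (e.c : ℂ)).arg := Complex.arg_nonneg_iff.mpr (by rw [hzcim]; exact hd0.le)
  have hb1 : (z - (e.c : ℂ)).arg ≤ Real.pi / 2 := by
    have := Complex.abs_arg_le_pi_div_two_iff.mpr (by rw [hzcre]; exact hδ.le : 0 ≤ (z - (e.c : ℂ)).re)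
    exact (le_abs_self _).trans this
  have hsinb : Real.sin (z - (e.c : ℂ)).arg = (z - (e.c : ℂ)).im / ‖z - (e.c : ℂ)‖ := Complex.sin_arg _
  rw [hzcim] at hsinb
  have hsb1 : 446 / 1000 ≤ d / ‖z - (e.c : ℂ)‖ := by
    rw [le_div_iff₀ hzn]
    have : 446 / 1000 * ‖z - (e.c : ℂ)‖ ≤ 446 / 1000 * (112 / 100 * δ) :=
      mul_le_mul_of_nonneg_left hzle (by norm_num)
    rw [hd]
    linarith
  have hsb2 : d / ‖z - (e.c : ℂ)‖ ≤ 448 / 1000 := by
    rw [div_le_iff₀ hzn]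
    rw [← pow_le_pow_iff_left₀ hd0.le (by positivity) (by norm_num : (2:ℕ) ≠ 0), mul_pow, hzsq, hd]
    nlinarith [sq_nonneg δ, hδ]
  have hpi1 : 3.14 < Real.pi := Real.pi_gt_d2
  have hpi2 : Real.pi < 3.15 := Real.pi_lt_d2
  have hb2 : 446 / 1000 ≤ (z - (e.c : ℂ)).arg := by
    have := Real.sin_le hb0
    linarith
  have hb3 : (z - (e.c : ℂ)).arg ≤ 71 / 100 := by
    have h1 := Real.mul_le_sin hb0 hb1
    have h2 : 2 / Real.pi * (z - (e.c : ℂ)).arg ≤ 448 / 1000 := by linarith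
    have h9 : (z - (e.c : ℂ)).arg = Real.pi / 2 * (2 / Real.pi * (z - (e.c : ℂ)).arg) := by
      field_simp
    rw [h9]
    have h10 : Real.pi / 2 * (2 / Real.pi * (z - (e.c : ℂ)).arg) ≤ Real.pi / 2 * (448 / 1000) :=
      mul_le_mul_of_nonneg_left h2 (by positivity)
    linarith
  rw [abs_le] at hα2
  set θ := (e.g z).arg + (z - (e.c : ℂ)).arg / 2 with hθ
  have hθ1 : 211 / 1000 ≤ θ := by rw [hθ]; linarith [hα2.1]
  have hθ2 : θ ≤ 37 / 100 := by rw [hθ]; linarith [hα2.2]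
  have hsin1 : 1 / 5 ≤ Real.sin θ := by
    have h1 := Real.sin_gt_sub_cube (x := θ) (by linarith)
    have h3 : θ ^ 3 ≤ θ * (37 / 100) ^ 2 := by
      have : θ ^ 3 = θ * θ ^ 2 := by ring
      rw [this]
      apply mul_le_mul_of_nonneg_left _ (by linarith)
      exact pow_le_pow_left₀ (by linarith) hθ2 2
    nlinarith
  have hsin2 : Real.sin θ ≤ 37 / 100 := (Real.sin_le (by linarith)).trans hθ2
  have hcos : 93 / 100 ≤ Real.cos θ := by
    have h1 := Real.one_sub_sq_div_two_le_cos (x := θ)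
    have h2 : θ ^ 2 ≤ (37 / 100) ^ 2 := pow_le_pow_left₀ (by linarith) hθ2 2
    norm_num at h2
    linarith
  set F := ‖cd.f z - (e.N : ℂ)‖ with hF
  set Y := Yf cd x d with hY
  have hYF : Y = F * Real.sin θ := by
    have h1 : Y = (cd.f z - (e.N : ℂ)).im := by rw [hY]; simp [Yf, hz]
    rw [h1]
    exact e_im e.c hzU
  have hRF : (cd.f z).re - e.N = F * Real.cos θ := by
    have h1 : (cd.f z).re - e.N = (cd.f z - (e.N : ℂ)).re := by simp
    rw [h1]
    exact e_re e.c hzU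
  have hY0 : 0 < Y := (r3 x d d hd0 le_rfl).1
  have hF0 : 0 < F := by
    rcases (norm_nonneg (cd.f z - (e.N : ℂ))).lt_or_eq with h | h
    · exact h
    · rw [hYF, hF, ← h, zero_mul] at hY0
      exact absurd hY0 (lt_irrefl _)
  have hFY : F ≤ 5 * Y := by
    rw [hYF]; nlinarith
  have hYF2 : Y ≤ F * (37 / 100) := by rw [hYF]; exact mul_le_mul_of_nonneg_left hsin2 hF0.le
  have hp := r5 x d hd0
  change |(cd.f z).re - Nf cd x| ≤ Y at hp
  rw [abs_le] at hp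
  have hNx : Y ≤ Nf cd x - e.N := by
    have h1 : F * (93 / 100) ≤ F * Real.cos θ := mul_le_mul_of_nonneg_left hcos hF0.le
    linarith [hp.2]
  have hlx := hLW x (by linarith) (by linarith)
  have hY1 : Y ≤ 1 / 1000 := by
    have hmu0 := abs_nonneg e.mu
    have : (Nf cd x - e.N) * 1 ≤ (Nf cd x - e.N) * (|e.mu| + 1) :=
      mul_le_mul_of_nonneg_left (by linarith) (by linarith)
    linarith
  -- the mass
  set M := 99 / 100 / (18 * Y) with hM
  have hM1 : 1 ≤ M := by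
    rw [hM, le_div_iff₀ (by positivity)]; linarith
  have hMY : M * Y = 11 / 200 := by
    rw [hM]; field_simp; norm_num
  obtain ⟨q1, q2⟩ := hQ2 ε Hm Hp C cd ⟨he, hHm, hpar⟩ hε x d M ∅ hd0 hM1 MeasurableSet.empty
    (by
      intro t ht
      obtain ⟨a1, a2, a3, a4⟩ := hp1 t (by linarith [ht.1]) (by linarith [ht.2])
      exact ⟨a1, a2⟩)
    (by
      intro W hW
      right
      obtain ⟨m1, m2⟩ := hW
      obtain ⟨t, ht1, ht2⟩ : ∃ t, t ∈ Icc W.a W.b ∧ |t - x| ≤ d := by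
        refine ⟨max W.a (x - d), ⟨le_max_left _ _, max_le W.lt.le m2⟩, ?_⟩
        rw [abs_le]
        constructor
        · linarith [le_max_right W.a (x - d)]
        · linarith [max_le m1 (by linarith : x - d ≤ x + d)]
      have hb := r6 x d t x hd0 ht2 (by simp [hd0.le])
      rw [abs_le] at ht2 hb
      obtain ⟨a1, a2, a3, a4⟩ := hp1 t (by linarith [ht2.1]) (by linarith [ht2.2])
      have h1 := a4 W ht1
      have hWN : Nf cd t = W.N := W.lab t ht1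
      have h2 : W.N - e.N ≤ 18 * Y := by
        have hre : (cd.f z).re - e.N ≤ F := by
          rw [hRF]
          have := Real.cos_le_one θ
          nlinarith
        linarith [hb.2, hp.1]
      have hm0 := abs_nonneg W.mu
      rw [hM, div_le_iff₀ (by positivity)]
      have h3 : |W.mu| * (W.N - e.N) ≤ |W.mu| * (18 * Y) := mul_le_mul_of_nonneg_left h2 hm0
      linarith)
    (by rw [hMY]; linarith)
  rw [sdiff_empty] at q2
  have hq3 : ε ^ 2 * (d / (Y * M ^ 2) + 81 * d / M) ≤ 1804 * ε ^ 2 * d * Y := by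
    have h1 : d / (Y * M ^ 2) + 81 * d / M = d * Y * ((1 / (M * Y)) ^ 2 + 81 / (M * Y)) := by
      have hM0 : 0 < M := by linarith
      field_simp
    rw [h1, hMY]
    have h2 : ((1 / (11 / 200 : ℝ)) ^ 2 + 81 / (11 / 200)) ≤ 1804 := by norm_num
    have h3 : 0 ≤ ε ^ 2 * (d * Y) := by positivity
    have h4 := mul_le_mul_of_nonneg_left h2 h3
    linarith
  have hq4 : ∫ t in Icc (x - d) (x + d), vf cd t ≤ 1804 * ε ^ 2 * d * Y := q2.trans hq3
  -- compare the integrals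
  have hs2 : 0 < Real.sqrt (δ / 2) := Real.sqrt_pos.mpr (by linarith)
  have hI : ∫ t in Icc (e.c + δ / 2) (e.c + 3 * δ / 2), vf cd t / Real.sqrt (t - e.c) ≤
      (1804 * ε ^ 2 * d * Y) / Real.sqrt (δ / 2) := by
    have hset : Icc (e.c + δ / 2) (e.c + 3 * δ / 2) = Icc (x - d) (x + d) := by
      congr 1 <;> rw [hx, hd] <;> ring
    rw [hset]
    have h1 : ∫ t in Icc (x - d) (x + d), vf cd t / Real.sqrt (t - e.c) ≤
        ∫ t in Icc (x - d) (x + d), vf cd t / Real.sqrt (δ / 2) := by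
      apply integral_mono_of_nonneg
      · filter_upwards with t
        exact div_nonneg (p1 t).1 (Real.sqrt_nonneg _)
      · exact q1.div_const _
      · filter_upwards [ae_restrict_mem measurableSet_Icc] with t ht
        apply div_le_div_of_nonneg_left (p1 t).1 hs2
        apply Real.sqrt_le_sqrt
        linarith [ht.1]
    refine h1.trans ?_
    rw [integral_div]
    exact div_le_div_of_nonneg_right hq4 hs2.le
  -- amplitude
  have hFg : F = ‖e.g z‖ * Real.sqrt ‖z - (e.c : ℂ)‖ := e_norm e.c hzU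
  have hs3 : Real.sqrt ‖z - (e.c : ℂ)‖ ≤ 2 * Real.sqrt (δ / 2) := by
    rw [Real.sqrt_le_left (by positivity), mul_pow, Real.sq_sqrt (by linarith)]
    linarith
  have hgz0 : 0 < ‖e.g z‖ := by
    rcases (norm_nonneg (e.g z)).lt_or_eq with h | h
    · exact h
    · rw [hFg, ← h, zero_mul] at hF0
      exact absurd hF0 (lt_irrefl _)
  have hF2 : 0 < ‖cd.f z2 - (e.N : ℂ)‖ := by
    have h1 : 0 < Yf cd x δ := (r3 x δ δ hδ le_rfl).1
    have h2 : Yf cd x δ = (cd.f z2 - (e.N : ℂ)).im := by simp [Yf, hz2]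
    have h3 := Complex.abs_im_le_norm (cd.f z2 - (e.N : ℂ))
    rw [← h2, abs_of_pos h1] at h3
    linarith
  have hgz20 : 0 < ‖e.g z2‖ := by
    rw [e_norm e.c hz2U (w := cd.f z2 - (e.N : ℂ))] at hF2
    rcases (norm_nonneg (e.g z2)).lt_or_eq with h | h
    · exact h
    · change 0 < ‖e.g z2‖ * _ at hF2
      rw [← h, zero_mul] at hF2
      exact absurd hF2 (lt_irrefl _)
  have hlog := g2 z hzU z2 hz2U (by linarith) (by linarith)
  have hzz : ‖z - z2‖ ≤ d := by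
    have h1 : z - z2 = ((d - δ : ℝ) : ℂ) * I := by
      rw [hz, hz2]; push_cast; ring
    rw [h1, norm_mul, Complex.norm_I, mul_one, Complex.norm_real, Real.norm_eq_abs]
    rw [abs_le]; constructor <;> rw [hd] <;> linarith
  have hgg : ‖e.g z‖ ≤ Real.exp (2 * K2) * ‖e.g z2‖ := by
    rw [← Real.exp_log hgz0, ← Real.exp_log hgz20, ← Real.exp_add]
    apply Real.exp_le_exp.mpr
    have h1 := (le_abs_self _).trans hlog
    rw [hzi, hz2i] at h1
    have n0 := norm_nonneg (z - z2)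
    have l1 : Real.log (1 + ‖z - z2‖ / d) ≤ 1 := by
      have h2 : ‖z - z2‖ / d ≤ 1 := by rw [div_le_one hd0]; exact hzz
      have h3 := Real.log_le_sub_one_of_pos (x := 1 + ‖z - z2‖ / d) (by positivity)
      linarith
    have l2 : Real.log (1 + ‖z - z2‖ / δ) ≤ 1 := by
      have h2 : ‖z - z2‖ / δ ≤ 1 := by rw [div_le_one hδ]; linarith
      have h3 := Real.log_le_sub_one_of_pos (x := 1 + ‖z - z2‖ / δ) (by positivity)
      linarith
    have l3 : ‖z - z2‖ / R ≤ 1 := by rw [div_le_one hR]; linarith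
    have l4 : ε * (1 + Real.log (1 + ‖z - z2‖ / d) + Real.log (1 + ‖z - z2‖ / δ)) + ‖z - z2‖ / R ≤ 2 := by
      have : ε * (1 + Real.log (1 + ‖z - z2‖ / d) + Real.log (1 + ‖z - z2‖ / δ)) ≤ ε * 3 :=
        mul_le_mul_of_nonneg_left (by linarith) he.le
      linarith
    have l5 := mul_le_mul_of_nonneg_left l4 (by linarith : 0 ≤ K2)
    have l6 : Real.log ‖e.g z‖ - Real.log ‖e.g z2‖ ≤ K2 * 2 := h1.trans l5
    linarith
  refine hI.trans ?_
  rw [div_le_iff₀ hs2]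
  have hYF3 : Y ≤ F := by linarith
  have hfin : Y ≤ (Real.exp (2 * K2) * ‖e.g z2‖) * (2 * Real.sqrt (δ / 2)) := by
    refine hYF3.trans ?_
    rw [hFg]
    exact mul_le_mul hgg hs3 (Real.sqrt_nonneg _) (by positivity)
  have h9 : 1804 * ε ^ 2 * d * Y ≤ 1804 * ε ^ 2 * d * ((Real.exp (2 * K2) * ‖e.g z2‖) * (2 * Real.sqrt (δ / 2))) :=
    mul_le_mul_of_nonneg_left hfin (by positivity)
  refine h9.trans (le_of_eq ?_)
  rw [hd]
  change _ = 1804 * Real.exp (2 * K2) * ε ^ 2 * δ * ‖e.g z2‖ * Real.sqrt (δ / 2)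
  ring

end

end

end Pool.Agent.Helper37.CV.E3
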