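import Pool.Agent.Helper37.CV.Q7f

set_option autoImplicit false

namespace Pool.Agent.Helper37.CV.Q7

open Complex Filter Topology MeasureTheory Set
open Pool.Agent.Helper36.CV

noncomputable section

/-- the constant of the third claim -/
def KA (K3 : ℝ) : ℝ := 220 * Real.exp (5 * K3 + 1)

lemma KA_ge {K3 : ℝ} (h : 1 ≤ K3) : 220 ≤ KA K3 := by
  unfold KA
  have : 1 ≤ Real.exp (5 * K3 + 1) := Real.one_le_exp (by linarith)
  linarith

/-- the four claims -/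
def Concl {Hm Hp : ℝ} {C : Set ℝ} {cd : CD Hm Hp C} (K ε : ℝ) (V0 V : Gap cd) (R x y : ℝ) : Prop :=
  0 < y ∧ V.s ≤ K * ε * y ∧
  (1 - K * (ε + (x / R) ^ (9 / 10 : ℝ))) * |V.N - V0.N| * x ≤ V.kk * (x ^ 2 - (V0.s / 2) ^ 2) ∧
  V.s * (1 - |V.N - V0.N| * (|V0.mu| + |V.N - V0.N|)) * x ≤
    ε / 2 * (1 + 98 * ε) * (1 + K * (ε + (x / R) ^ (9 / 10 : ℝ))) * (x ^ 2 - (V0.s / 2) ^ 2)

/-- the facts hold -/
lemma mkRt (hP1 : ST_P1) (hP2 : ST_P2) (hP3 : ST_P3) (hP5 : ST_P5) (K3 : ℝ) (hK3 : 1 ≤ K3)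
    (hQ3 : ∀ (ε Hm Hp : ℝ) (C : Set ℝ) (cd : CD Hm Hp C), 0 < Hm → 0 < ε → ε ≤ 1 / 100 →
      ∀ (a b N R : ℝ), a ≤ b → b - a ≤ R → 0 < R → (∀ t ∈ Icc a b, Nf cd t = N) →
      (∀ t : ℝ, Nf cd t = N → t ∈ Icc a b) →
      (∀ t : ℝ, |t - (a + b) / 2| ≤ R → t ∉ Icc a b → vf cd t ≤ 3 * ε * |Nf cd t - N|) →
      (∀ z ∈ Uo, ‖z - ((a + b) / 2 : ℝ)‖ ≤ R / 4 →
        |((cd.f z - N) / qc a b z).arg| ≤ 3 * ε + ‖z - ((a + b) / 2 : ℝ)‖ / R) ∧
      (∀ z₁ ∈ Uo, ∀ z₂ ∈ Uo, ‖z₁ - ((a + b) / 2 : ℝ)‖ ≤ R / 4 → ‖z₂ - ((a + b) / 2 : ℝ)‖ ≤ R / 4 →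
        |Real.log ‖(cd.f z₁ - N) / qc a b z₁‖ - Real.log ‖(cd.f z₂ - N) / qc a b z₂‖| ≤
          K3 * (ε * (1 + Real.log (1 + ‖z₁ - z₂‖ / z₁.im) + Real.log (1 + ‖z₁ - z₂‖ / z₂.im)) + ‖z₁ - z₂‖ / R)) ∧
      (a < b → ∀ z ∈ Uo, ‖z - ((a + b) / 2 : ℝ)‖ ≤ R / 4 →
        |Real.log ‖(cd.f z - N) / qc a b z‖ - Real.log (KI cd a b ((a + b) / 2))| ≤
          K3 * (ε * (1 + Real.log (1 + ‖z - ((a + b) / 2 : ℝ)‖ / z.im) +
            Real.log (1 + ‖z - ((a + b) / 2 : ℝ)‖ / (b - a))) + ‖z - ((a + b) / 2 : ℝ)‖ / R)))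
    (hQ4 : ST_Q4) (ε Hm Hp : ℝ) (C : Set ℝ) (cd : CD Hm Hp C) (hPar : Par ε Hm Hp)
    (hε1 : ε ≤ 1 / 10 ^ 5) (hε2 : K3 * ε ≤ 1 / 100) (V0 V : Gap cd) (R : ℝ)
    (hLW : V0.LW R) (hsR : V0.s ≤ R) (hlt : V0.a < V.a) (hxR : 1000 * (V.c - V0.c) ≤ R) :
    Rt ε K3 cd V0 V R := by
  obtain ⟨he, hHm, hpar⟩ := hPar
  obtain ⟨p1, p2, p3, p4, p5, p6, p7, p8, p9, p10, p11, p12⟩ := hP2 Hm Hp C cd hHm
  obtain ⟨o1, o2⟩ := p5 V0 V hlt
  obtain ⟨r1, r2, r3, r4, r5, r6⟩ := hP1 Hm Hp C cd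
  have hs0 : 0 < V0.s := by unfold Gap.s; linarith [V0.lt]
  have hR0 : 0 < R := lt_of_lt_of_le hs0 hsR
  have hne : V0 ≠ V := by
    intro h; rw [h] at hlt; exact lt_irrefl _ hlt
  obtain ⟨w1, w2, w3, w4⟩ := hQ4 ε Hm Hp C cd ⟨he, hHm, hpar⟩ hε1
  have hsmall : ∀ t : ℝ, |t - V0.c| ≤ R → t ∉ Icc V0.a V0.b → vf cd t ≤ 3 * ε * |Nf cd t - V0.N| := by
    intro t ht hn
    exact (w4 V0 t (hLW t ht)).2.2.1 hn
  obtain ⟨s1, s2, s3⟩ := hQ3 ε Hm Hp C cd hHm he (by linarith) V0.a V0.b V0.N R V0.lt.le hsR hR0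
    (fun t ht => V0.lab t ht) (p7 V0) hsmall
  obtain ⟨t1, t2, t3⟩ := hP3 Hm Hp C cd V.a V.b V.N V.lt (fun t ht => V.lab t ht)
  obtain ⟨u1, u2⟩ := hP5 Hm Hp C cd V0 V hne (Or.inl o1)
  obtain ⟨v1, v2, v3, v4, v5, v6, v7⟩ := p4 V
  exact {
    eps0 := he
    eps1 := hε1
    eK := hε2
    K1 := hK3
    ord := o1
    dNpos := o2
    hR := hxR
    g3a := s1
    g3b := s2
    small := hsmall
    p15 := r5
    ypos := fun x r hr => (r3 x r r hr le_rfl).1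
    vnn := fun x => (p1 x).1
    pois := r1
    kk1 := v5
    kkpos := v6
    p33 := t3
    p5i := u1
    p5 := u2 }

/-- the right-hand side case -/
lemma right_case {ε K3 Hm Hp : ℝ} {C : Set ℝ} {cd : CD Hm Hp C} {V0 V : Gap cd} {R : ℝ}
    (H : Rt ε K3 cd V0 V R) (hmu : |V.mu| * V.kk * V.s ≤ ε / 2 * (1 + 98 * ε))
    (hAR : 1 ≤ |V.N - V0.N| * (|V.N - V0.N| + |V.mu - V0.mu|)) :
    Concl (360 * KA K3) ε V0 V R (V.c - V0.c) (V.c - V0.b) := by
  obtain ⟨g1, g2, g3, g4, g5, g6, g7, g8, g9⟩ := geo V0 V H.ord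
  have e0 := H.eps0
  have hR := H.hR
  have hd := H.dNpos
  have hK := KA_ge H.K1
  have hsize := H.size
  have hth := H.third
  have hkk := H.kkpos
  change (1 - KA K3 * (ε + ((V.c - V0.c) / R) ^ (9 / 10 : ℝ))) * (V.N - V0.N) * (V.c - V0.c) ≤
      V.kk * ((V.c - V0.c) ^ 2 - (V0.s / 2) ^ 2) at hth
  unfold Concl
  have habs : |V.N - V0.N| = V.N - V0.N := abs_of_pos (by linarith)
  rw [habs] at hAR ⊢
  have hmu2 : |V.mu - V0.mu| ≤ |V.mu| + |V0.mu| := abs_sub _ _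
  have hR0 : 0 < R := by linarith
  have hQ : (V.c - V0.c) ^ 2 - (V0.s / 2) ^ 2 = (V.c - V0.b) * (V.c - V0.c + V0.s / 2) := by
    rw [g4]; ring
  rw [hQ] at hth ⊢
  set T := ((V.c - V0.c) / R) ^ (9 / 10 : ℝ) with hT
  have hx0 : 0 < V.c - V0.c := by linarith
  have hT0 : 0 ≤ T := by positivity
  set x := V.c - V0.c with hx
  set y := V.c - V0.b with hy
  have hy0 : 0 < y := by linarith
  set dN := V.N - V0.N with hdN
  have hdN0 : 0 < dN := by rw [hdN]; linarith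
  set κ := KA K3 * (ε + T) with hκ
  have hκ0 : 0 ≤ κ := by positivity
  have hQ0 : 0 < y * (x + V0.s / 2) := by positivity
  have hQ1 : y * x ≤ y * (x + V0.s / 2) := mul_le_mul_of_nonneg_left (by linarith) hy0.le
  have e360 : 360 * KA K3 * (ε + T) = 360 * κ := by rw [hκ]; ring
  refine ⟨hy0, ?_, ?_, ?_⟩
  · refine hsize.trans ?_
    apply mul_le_mul_of_nonneg_right _ hy0.le
    apply mul_le_mul_of_nonneg_right _ e0.le
    linarith
  · refine le_trans ?_ hth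
    apply mul_le_mul_of_nonneg_right _ hx0.le
    apply mul_le_mul_of_nonneg_right _ hdN0.le
    rw [e360]
    linarith
  · rw [e360]
    have hm0 := abs_nonneg V.mu
    have hm1 := abs_nonneg V0.mu
    have he1 : 0 ≤ ε / 2 * (1 + 98 * ε) := by positivity
    rcases le_or_gt κ (1 / 2) with h | h
    · have h1 : 1 - dN * (|V0.mu| + dN) ≤ |V.mu| * dN := by
        have : dN * (dN + |V.mu - V0.mu|) ≤ dN * (dN + (|V.mu| + |V0.mu|)) :=
          mul_le_mul_of_nonneg_left (by linarith) hdN0.le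
        linarith
      have h2 : V.s * (1 - dN * (|V0.mu| + dN)) * x ≤ V.s * (|V.mu| * dN) * x :=
        mul_le_mul_of_nonneg_right (mul_le_mul_of_nonneg_left h1 g2.le) hx0.le
      have h3 : V.s * |V.mu| * ((1 - κ) * dN * x) ≤ V.s * |V.mu| * (V.kk * (y * (x + V0.s / 2))) :=
        mul_le_mul_of_nonneg_left hth (by positivity)
      have h4 : V.s * |V.mu| * (V.kk * (y * (x + V0.s / 2))) ≤
          (ε / 2 * (1 + 98 * ε)) * (y * (x + V0.s / 2)) := by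
        have := mul_le_mul_of_nonneg_right hmu hQ0.le
        linarith
      set Mq := V.s * (|V.mu| * dN) * x with hMq
      have hM0 : 0 ≤ Mq := by positivity
      have h5 : (1 - κ) * Mq ≤ (ε / 2 * (1 + 98 * ε)) * (y * (x + V0.s / 2)) := by
        refine le_trans (le_of_eq ?_) (h3.trans h4)
        rw [hMq]; ring
      have h6 : Mq ≤ (1 + 2 * κ) * ((1 - κ) * Mq) := by
        have : (1 + 2 * κ) * ((1 - κ) * Mq) = Mq + κ * (1 - 2 * κ) * Mq := by ring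
        rw [this]
        have : 0 ≤ κ * (1 - 2 * κ) * Mq := mul_nonneg (mul_nonneg hκ0 (by linarith)) hM0
        linarith
      have h7 : (1 + 2 * κ) * ((1 - κ) * Mq) ≤ (1 + 2 * κ) * ((ε / 2 * (1 + 98 * ε)) * (y * (x + V0.s / 2))) :=
        mul_le_mul_of_nonneg_left h5 (by linarith)
      have h8 : (1 + 2 * κ) * ((ε / 2 * (1 + 98 * ε)) * (y * (x + V0.s / 2))) ≤
          (1 + 360 * κ) * ((ε / 2 * (1 + 98 * ε)) * (y * (x + V0.s / 2))) :=
        mul_le_mul_of_nonneg_right (by linarith) (by positivity)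
      calc V.s * (1 - dN * (|V0.mu| + dN)) * x ≤ Mq := h2
        _ ≤ (1 + 360 * κ) * ((ε / 2 * (1 + 98 * ε)) * (y * (x + V0.s / 2))) := h6.trans (h7.trans h8)
        _ = _ := by ring
    · have h1 : V.s * (1 - dN * (|V0.mu| + dN)) * x ≤ V.s * 1 * x := by
        apply mul_le_mul_of_nonneg_right _ hx0.le
        apply mul_le_mul_of_nonneg_left _ g2.le
        have : 0 ≤ dN * (|V0.mu| + dN) := by positivity
        linarith
      have h2 : V.s * 1 * x ≤ 90 * ε * y * x := by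
        rw [mul_one]; exact mul_le_mul_of_nonneg_right hsize hx0.le
      have h3 : 90 * ε * y * x ≤ 90 * ε * (y * (x + V0.s / 2)) := by
        have := mul_le_mul_of_nonneg_left hQ1 (by positivity : 0 ≤ 90 * ε)
        linarith
      have h4 : 90 * ε ≤ ε / 2 * (1 + 98 * ε) * (1 + 360 * κ) := by
        have a1 : ε / 2 * 1 ≤ ε / 2 * (1 + 98 * ε) := mul_le_mul_of_nonneg_left (by linarith) (by linarith)
        have a2 : (180 : ℝ) ≤ 1 + 360 * κ := by linarith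
        have a3 : (ε / 2 * 1) * 180 ≤ ε / 2 * (1 + 98 * ε) * (1 + 360 * κ) :=
          mul_le_mul a1 a2 (by norm_num) he1
        linarith
      have h5 := mul_le_mul_of_nonneg_right h4 hQ0.le
      linarith

theorem st_Q7 (hP1 : ST_P1) (hP2 : ST_P2) (hP3 : ST_P3) (hP5 : ST_P5) (hMR : ST_MR)
    (hQ3 : ST_Q3) (hQ4 : ST_Q4) : ST_Q7 := by
  obtain ⟨K3, hK3, hQ3⟩ := hQ3
  have hKA := KA_ge hK3
  refine ⟨360 * KA K3, min (1 / 10 ^ 5) (1 / (100 * K3)), by linarith, by positivity, ?_⟩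
  intro ε Hm Hp C cd hPar hε V0 V R x y hmu0 hLW hsR hne hx hKx hy
  have hε1 : ε ≤ 1 / 10 ^ 5 := hε.trans (min_le_left _ _)
  have hε2 : K3 * ε ≤ 1 / 100 := by
    have h1 : ε ≤ 1 / (100 * K3) := hε.trans (min_le_right _ _)
    have h2 : K3 * ε ≤ K3 * (1 / (100 * K3)) := mul_le_mul_of_nonneg_left h1 (by linarith)
    have h3 : K3 * (1 / (100 * K3)) = 1 / 100 := by
      have : K3 ≠ 0 := by linarith
      field_simp
    linarith
  have hHm : 0 < Hm := hPar.2.1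
  obtain ⟨p1, p2, p3, p4, p5, p6, p7, p8, p9, p10, p11, p12⟩ := hP2 Hm Hp C cd hHm
  have hx00 : 0 ≤ x := by rw [hx]; exact abs_nonneg _
  have h1000 : 1000 * x ≤ R := by
    refine le_trans ?_ hKx
    apply mul_le_mul_of_nonneg_right _ hx00
    linarith
  rcases lt_trichotomy V0.a V.a with hlt | heq | hgt
  · -- V to the right
    obtain ⟨g1, g2, g3, g4, g5, g6, g7, g8, g9⟩ := geo V0 V (p5 V0 V hlt).1
    have hxe : x = V.c - V0.c := by rw [hx]; exact abs_of_pos (by linarith)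
    have hye : y = V.c - V0.b := by rw [hy, hxe]; linarith
    have H := mkRt hP1 hP2 hP3 hP5 K3 hK3 hQ3 hQ4 ε Hm Hp C cd hPar hε1 hε2 V0 V R hLW hsR hlt
      (by rw [← hxe]; exact h1000)
    have hc := right_case H ((hQ4 ε Hm Hp C cd hPar hε1).2.1 V) (p8 V V0 hne)
    rw [hxe, hye]
    exact hc
  · exact absurd (p6 V0 V heq).symm hne
  · -- V to the left
    obtain ⟨cd', m1, m2, m3, e, he⟩ := hMR Hm Hp C cd hHm
    obtain ⟨a1, a2, a3, a4, a5, a6⟩ := he V0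
    obtain ⟨b1, b2, b3, b4, b5, b6⟩ := he V
    obtain ⟨p1', p2', p3', p4', p5', p6', p7', p8', p9', p10', p11', p12'⟩ := hP2 Hm Hp (-C) cd' hHm
    have ho := (p5 V V0 hgt).1
    have hlt' : (e V0).a < (e V).a := by
      rw [a1, b1]
      have := V0.lt
      linarith
    have hs0 : (e V0).s = V0.s := by unfold Gap.s; rw [a1, a2]; ring
    have hs : (e V).s = V.s := by unfold Gap.s; rw [b1, b2]; ring
    have hc0 : (e V0).c = -V0.c := by unfold Gap.c; rw [a1, a2]; ring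
    have hc : (e V).c = -V.c := by unfold Gap.c; rw [b1, b2]; ring
    have hmu : |(e V0).mu| = |V0.mu| := by
      unfold Gap.mu; rw [a3]; push_cast; rw [mul_neg, abs_neg]
    have hLW' : (e V0).LW R := by
      intro t ht
      rw [hc0] at ht
      have h1 : |(-t) - V0.c| ≤ R := by
        have : (-t) - V0.c = -(t - -V0.c) := by ring
        rw [this, abs_neg]; exact ht
      have h2 := hLW (-t) h1
      have h3 : |Nf cd' t - (e V0).N| = |Nf cd (-t) - V0.N| := by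
        rw [m2, a4]
        have : 1 - Nf cd (-t) - (1 - V0.N) = -(Nf cd (-t) - V0.N) := by ring
        rw [this, abs_neg]
      rw [h3, hmu]
      exact h2
    obtain ⟨g1, g2, g3, g4, g5, g6, g7, g8, g9⟩ := geo (e V0) (e V) (p5' _ _ hlt').1
    obtain ⟨k1, k2, k3, k4, k5, k6, k7, k8, k9⟩ := geo V V0 ho
    have hxe : x = (e V).c - (e V0).c := by
      rw [hx, hc, hc0, abs_of_neg (by linarith)]; ring
    have hye : y = (e V).c - (e V0).b := by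
      rw [hy, hxe, ← hs0]; linarith
    have H := mkRt hP1 hP2 hP3 hP5 K3 hK3 hQ3 hQ4 ε Hm Hp (-C) cd' hPar hε1 hε2 (e V0) (e V) R hLW'
      (by rw [hs0]; exact hsR) hlt' (by rw [← hxe]; exact h1000)
    have hne' : e V ≠ e V0 := fun h => hne (e.injective h)
    have hcc := right_case H ((hQ4 ε Hm Hp (-C) cd' hPar hε1).2.1 (e V)) (p8' (e V) (e V0) hne')
    unfold Concl at hcc
    rw [← hxe, ← hye, hs, hs0, hmu, b5] at hcc
    have hNN : |(e V).N - (e V0).N| = |V.N - V0.N| := by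
      rw [b4, a4]
      have : 1 - V.N - (1 - V0.N) = -(V.N - V0.N) := by ring
      rw [this, abs_neg]
    rw [hNN] at hcc
    exact hcc

end

end Pool.Agent.Helper37.CV.Q7
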