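import Pool.Agent.Helper36.CV.StmtsQ

set_option autoImplicit false

namespace Pool.Agent.Helper37.CV.Q7

open Complex Filter Topology MeasureTheory Set
open Pool.Agent.Helper36.CV

/-- integral of 1/((X-t)^2 sqrt((t-a)(b-t))) over [a,b], X > b -/
lemma av_int (a b X : ℝ) (hab : a < b) (hX : b < X) :
    IntervalIntegrable (fun t => 1 / ((X - t) ^ 2 * Real.sqrt ((t - a) * (b - t)))) volume a b ∧
    ∫ t in a..b, 1 / ((X - t) ^ 2 * Real.sqrt ((t - a) * (b - t))) =
      Real.pi * (X - (a + b) / 2) / (Real.sqrt ((X - a) * (X - b))) ^ 3 := by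
  have hu : 0 < X - a := by linarith
  have hw : 0 < X - b := by linarith
  set q := Real.sqrt ((X - a) * (X - b)) with hq
  have hq0 : 0 < q := Real.sqrt_pos.mpr (mul_pos hu hw)
  have hq2 : q ^ 2 = (X - a) * (X - b) := Real.sq_sqrt (mul_pos hu hw).le
  set x := X - (a + b) / 2 with hx
  set h := (b - a) / 2 with hh
  have hh0 : 0 < h := by rw [hh]; linarith
  have hx0 : 0 < x := by rw [hx]; linarith
  have hxq : q ^ 2 = x ^ 2 - h ^ 2 := by rw [hq2, hx, hh]; ring
  set ψ : ℝ → ℝ := fun t => (x * (t - (a + b) / 2) - h ^ 2) / (h * (X - t)) with hψ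
  set F : ℝ → ℝ := fun t => - (Real.sqrt ((t - a) * (b - t)) / (q ^ 2 * (X - t))) +
    x / q ^ 3 * Real.arcsin (ψ t) with hF
  have hcont : ContinuousOn F (Icc a b) := by
    have c1 : ContinuousOn (fun t : ℝ => Real.sqrt ((t - a) * (b - t))) (Icc a b) := by fun_prop
    have c2 : ContinuousOn (fun t : ℝ => q ^ 2 * (X - t)) (Icc a b) := by fun_prop
    have c3 : ContinuousOn (fun t : ℝ => x * (t - (a + b) / 2) - h ^ 2) (Icc a b) := by fun_prop
    have c4 : ContinuousOn (fun t : ℝ => h * (X - t)) (Icc a b) := by fun_prop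
    have n2 : ∀ t ∈ Icc a b, q ^ 2 * (X - t) ≠ 0 := by
      intro t ht
      have : 0 < X - t := by linarith [ht.2]
      positivity
    have n4 : ∀ t ∈ Icc a b, h * (X - t) ≠ 0 := by
      intro t ht
      have : 0 < X - t := by linarith [ht.2]
      positivity
    have c5 := (c1.div c2 n2).neg
    have c6 : ContinuousOn ψ (Icc a b) := c3.div c4 n4
    have c7 := Real.continuous_arcsin.comp_continuousOn c6
    exact c5.add (c7.const_smul (x / q ^ 3))
  have hder : ∀ t ∈ Ioo a b, HasDerivAt F (1 / ((X - t) ^ 2 * Real.sqrt ((t - a) * (b - t)))) t := by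
    intro t ht
    have hXt : 0 < X - t := by linarith [ht.2]
    have hp : 0 < (t - a) * (b - t) := mul_pos (by linarith [ht.1]) (by linarith [ht.2])
    set S := Real.sqrt ((t - a) * (b - t)) with hS
    have hS0 : 0 < S := Real.sqrt_pos.mpr hp
    have hS2 : S ^ 2 = (t - a) * (b - t) := Real.sq_sqrt hp.le
    set τ := t - (a + b) / 2 with hτ
    have hSτ : S ^ 2 = h ^ 2 - τ ^ 2 := by rw [hS2, hh, hτ]; ring
    have hXτ : X - t = x - τ := by rw [hx, hτ]; ring
    have hxτ : 0 < x - τ := hXτ ▸ hXt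
    have d1 : HasDerivAt (fun t : ℝ => (t - a) * (b - t)) (1 * (b - t) + (t - a) * (-1)) t :=
      ((hasDerivAt_id t).sub_const a).mul ((hasDerivAt_id t).const_sub b)
    have d2 := d1.sqrt hp.ne'
    have d3 : HasDerivAt (fun t : ℝ => q ^ 2 * (X - t)) (q ^ 2 * (-1)) t :=
      ((hasDerivAt_id t).const_sub X).const_mul (q ^ 2)
    have n3 : q ^ 2 * (X - t) ≠ 0 := by positivity
    have d4 := (d2.div d3 n3).neg
    have d5 : HasDerivAt (fun t : ℝ => x * (t - (a + b) / 2) - h ^ 2) (x * 1) t :=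
      (((hasDerivAt_id t).sub_const ((a + b) / 2)).const_mul x).sub_const (h ^ 2)
    have d6 : HasDerivAt (fun t : ℝ => h * (X - t)) (h * (-1)) t :=
      ((hasDerivAt_id t).const_sub X).const_mul h
    have n6 : h * (X - t) ≠ 0 := by positivity
    have d7 : HasDerivAt ψ ((x * 1 * (h * (X - t)) - (x * (t - (a + b) / 2) - h ^ 2) * (h * (-1))) /
        (h * (X - t)) ^ 2) t := d5.div d6 n6
    have hψ1 : 1 - ψ t ^ 2 = (q * S / (h * (x - τ))) ^ 2 := by
      have : ψ t = (x * τ - h ^ 2) / (h * (x - τ)) := by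
        show (x * (t - (a + b) / 2) - h ^ 2) / (h * (X - t)) = _
        rw [← hτ, hXτ]
      rw [this, div_pow (x * τ - h ^ 2) (h * (x - τ)), div_pow (q * S) (h * (x - τ)), mul_pow q S, hxq, hSτ]
      have h9 : (h * (x - τ)) ^ 2 ≠ 0 := by positivity
      field_simp
      ring
    have hpos : 0 < q * S / (h * (x - τ)) := by positivity
    have hψne1 : ψ t ≠ -1 := by
      intro he
      have : (0:ℝ) < 1 - ψ t ^ 2 := by rw [hψ1]; positivity
      rw [he] at this; norm_num at this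
    have hψne2 : ψ t ≠ 1 := by
      intro he
      have : (0:ℝ) < 1 - ψ t ^ 2 := by rw [hψ1]; positivity
      rw [he] at this; norm_num at this
    have d8 := (Real.hasDerivAt_arcsin hψne1 hψne2).comp t d7
    have d9 := d8.const_mul (x / q ^ 3)
    have d10 := d4.add d9
    refine d10.congr_deriv ?_
    rw [hψ1, Real.sqrt_sq hpos.le]
    rw [show Real.sqrt ((t - a) * (b - t)) = S from rfl, ← hτ, hXτ]
    have e1 : 1 * (b - t) + (t - a) * (-1) = -2 * τ := by rw [hτ]; ring
    rw [e1]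
    have k1 : q ≠ 0 := hq0.ne'
    have k2 : S ≠ 0 := hS0.ne'
    have k3 : x - τ ≠ 0 := hxτ.ne'
    have k4 : h ≠ 0 := hh0.ne'
    have e2 : -((-2 * τ / (2 * S) * (q ^ 2 * (x - τ)) - S * (q ^ 2 * -1)) / (q ^ 2 * (x - τ)) ^ 2) =
        (τ * (x - τ) - S ^ 2) / (q ^ 2 * S * (x - τ) ^ 2) := by
      field_simp
      ring
    have e3 : x / q ^ 3 * (1 / (q * S / (h * (x - τ))) *
        ((x * 1 * (h * (x - τ)) - (x * τ - h ^ 2) * (h * -1)) / (h * (x - τ)) ^ 2)) =
        (x * (x ^ 2 - h ^ 2)) / (q ^ 4 * S * (x - τ)) := by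
      field_simp
      ring
    rw [e2, e3, ← hxq, hSτ]
    have e4 : τ * (x - τ) - (h ^ 2 - τ ^ 2) = q ^ 2 - x * (x - τ) := by rw [hxq]; ring
    rw [e4]
    field_simp
    ring
  have hpos : ∀ t ∈ Ioo a b, 0 ≤ 1 / ((X - t) ^ 2 * Real.sqrt ((t - a) * (b - t))) := by
    intro t _; positivity
  have hint := intervalIntegral.integrableOn_deriv_of_nonneg hcont hder hpos
  have hint2 : IntervalIntegrable (fun t => 1 / ((X - t) ^ 2 * Real.sqrt ((t - a) * (b - t)))) volume a b :=
    (intervalIntegrable_iff_integrableOn_Ioc_of_le hab.le).mpr hint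
  refine ⟨hint2, ?_⟩
  rw [intervalIntegral.integral_eq_sub_of_hasDerivAt_of_le hab.le hcont hder hint2]
  have ψb : ψ b = 1 := by
    show (x * (b - (a + b) / 2) - h ^ 2) / (h * (X - b)) = 1
    rw [div_eq_one_iff_eq (by positivity)]
    rw [hx, hh]; ring
  have ψa : ψ a = -1 := by
    show (x * (a - (a + b) / 2) - h ^ 2) / (h * (X - a)) = -1
    rw [div_eq_iff (by positivity)]
    rw [hx, hh]; ring
  show (- (Real.sqrt ((b - a) * (b - b)) / (q ^ 2 * (X - b))) + x / q ^ 3 * Real.arcsin (ψ b)) -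
    (- (Real.sqrt ((a - a) * (b - a)) / (q ^ 2 * (X - a))) + x / q ^ 3 * Real.arcsin (ψ a)) = _
  rw [ψa, ψb, Real.arcsin_one, Real.arcsin_neg_one]
  simp only [sub_self, mul_zero, zero_mul, Real.sqrt_zero, zero_div, neg_zero, zero_add]
  ring

/-- the auxiliary function 1/(sqrt(x d)(x+d)) and its integral -/
lemma phi_int (x : ℝ) (hx : 0 < x) :
    Integrable (fun d : ℝ => 1 / (Real.sqrt (x * d) * (x + d))) ∧
    ∫ d : ℝ, 1 / (Real.sqrt (x * d) * (x + d)) = Real.pi / x := by
  set g : ℝ → ℝ := fun d => 2 / x * Real.arctan (Real.sqrt (d / x)) with hg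
  have hc : ContinuousWithinAt g (Ici 0) 0 := by
    apply Continuous.continuousWithinAt
    fun_prop
  have hd : ∀ d ∈ Ioi (0:ℝ), HasDerivAt g (1 / (Real.sqrt (x * d) * (x + d))) d := by
    intro d hd0
    have hd0 : 0 < d := hd0
    have d1 : HasDerivAt (fun d : ℝ => d / x) (1 / x) d := (hasDerivAt_id d).div_const x
    have d2 := d1.sqrt (by positivity)
    have d3 := d2.arctan
    have d4 := d3.const_mul (2 / x)
    refine d4.congr_deriv ?_
    have hs : 0 < Real.sqrt x := Real.sqrt_pos.mpr hx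
    have hs2 : Real.sqrt x ^ 2 = x := Real.sq_sqrt hx.le
    have ht : 0 < Real.sqrt d := Real.sqrt_pos.mpr hd0
    have ht2 : Real.sqrt d ^ 2 = d := Real.sq_sqrt hd0.le
    rw [Real.sq_sqrt (by positivity), Real.sqrt_div hd0.le, Real.sqrt_mul hx.le]
    set s := Real.sqrt x
    set u := Real.sqrt d
    rw [← hs2, ← ht2]
    field_simp
  have hp : ∀ d ∈ Ioi (0:ℝ), 0 ≤ 1 / (Real.sqrt (x * d) * (x + d)) := by
    intro d hd0
    have hd0 : 0 < d := hd0
    positivity
  have hl : Tendsto g atTop (𝓝 (2 / x * (Real.pi / 2))) := by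
    apply Tendsto.const_mul
    have h1 : Tendsto (fun d : ℝ => Real.sqrt (d / x)) atTop atTop := by
      have := Real.tendsto_sqrt_atTop.comp (tendsto_id.atTop_div_const hx)
      exact this
    exact (Real.tendsto_arctan_atTop.mono_right nhdsWithin_le_nhds).comp h1
  have i1 := integrableOn_Ioi_deriv_of_nonneg hc hd hp hl
  have i2 := integral_Ioi_of_hasDerivAt_of_nonneg hc hd hp hl
  have hz : ∀ d : ℝ, d ∉ Ioi (0:ℝ) → 1 / (Real.sqrt (x * d) * (x + d)) = 0 := by
    intro d hd0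
    simp only [mem_Ioi, not_lt] at hd0
    have : Real.sqrt (x * d) = 0 := Real.sqrt_eq_zero_of_nonpos (mul_nonpos_of_nonneg_of_nonpos hx.le hd0)
    rw [this]; simp
  constructor
  · rw [← integrableOn_iff_integrable_of_support_subset (s := Ioi (0:ℝ))]
    · exact i1
    · intro d hd0
      by_contra hh
      exact hd0 (hz d hh)
  · rw [← setIntegral_eq_integral_of_forall_compl_eq_zero hz, i2]
    have : g 0 = 0 := by
      show 2 / x * Real.arctan (Real.sqrt (0 / x)) = 0
      simp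
    rw [this]
    ring

end Pool.Agent.Helper37.CV.Q7
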