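import Pool.Agent.Helper37.CV.Q7a
import Pool.Agent.Helper37.CV.Q7b

set_option autoImplicit false

namespace Pool.Agent.Helper37.CV.Q7

open Complex Filter Topology MeasureTheory Set
open Pool.Agent.Helper36.CV

noncomputable section

/-- the facts used: V0 is the reference gap, V lies to the right of V0 -/
structure Rt (ε K3 : ℝ) {Hm Hp : ℝ} {C : Set ℝ} (cd : CD Hm Hp C) (V0 V : Gap cd) (R : ℝ) : Prop where
  eps0 : 0 < ε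
  eps1 : ε ≤ 1 / 10 ^ 5
  eK : K3 * ε ≤ 1 / 100
  K1 : 1 ≤ K3
  ord : V0.b < V.a
  dNpos : V0.N < V.N
  hR : 1000 * (V.c - V0.c) ≤ R
  g3a : ∀ z ∈ Uo, ‖z - (V0.c : ℂ)‖ ≤ R / 4 → |(V0.g z).arg| ≤ 3 * ε + ‖z - (V0.c : ℂ)‖ / R
  g3b : ∀ z₁ ∈ Uo, ∀ z₂ ∈ Uo, ‖z₁ - (V0.c : ℂ)‖ ≤ R / 4 → ‖z₂ - (V0.c : ℂ)‖ ≤ R / 4 →
    |Real.log ‖V0.g z₁‖ - Real.log ‖V0.g z₂‖| ≤
      K3 * (ε * (1 + Real.log (1 + ‖z₁ - z₂‖ / z₁.im) + Real.log (1 + ‖z₁ - z₂‖ / z₂.im)) + ‖z₁ - z₂‖ / R)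
  small : ∀ t : ℝ, |t - V0.c| ≤ R → t ∉ Icc V0.a V0.b → vf cd t ≤ 3 * ε * |Nf cd t - V0.N|
  p15 : ∀ x r : ℝ, 0 < r → |(cd.f ((x : ℂ) + (r : ℂ) * I)).re - Nf cd x| ≤ Yf cd x r
  ypos : ∀ x r : ℝ, 0 < r → 0 < Yf cd x r
  vnn : ∀ x : ℝ, 0 ≤ vf cd x
  pois : ∀ x r : ℝ, 0 < r → Integrable (fun t => vf cd t * (r / ((t - x) ^ 2 + r ^ 2))) ∧
    Yf cd x r = (1 / Real.pi) * ∫ t : ℝ, vf cd t * (r / ((t - x) ^ 2 + r ^ 2))
  kk1 : V.kk = 2 * vf cd V.c / V.s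
  kkpos : 0 < V.kk
  p33 : ∀ r : ℝ, 0 < r → ‖cd.f ((V.c : ℂ) + (r : ℂ) * I) - V.N‖ ≤ Real.sqrt (r ^ 2 + V.s ^ 2 / 4) * V.kk
  p5i : Integrable (fun t => vf cd t / (V0.q t * V.q t * (t - V.c)))
  p5 : V.kk = V0.q V.c * ((V.N - V0.N) * V0.av (fun t => 1 / ((t - V.c) * V.q t)) +
    (1 / Real.pi) * ∫ t : ℝ, vf cd t / (V0.q t * V.q t * (t - V.c)))

lemma mem_Uo (x : ℝ) {r : ℝ} (hr : 0 < r) : (x : ℂ) + (r : ℂ) * I ∈ Uo := by
  show 0 < ((x : ℂ) + (r : ℂ) * I).im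
  simpa using hr

lemma im_z (x r : ℝ) : ((x : ℂ) + (r : ℂ) * I).im = r := by simp
lemma re_z (x r : ℝ) : ((x : ℂ) + (r : ℂ) * I).re = x := by simp

lemma nrm_le (x r a : ℝ) : ‖(x : ℂ) + (r : ℂ) * I - (a : ℂ)‖ ≤ |x - a| + |r| := by
  have := Complex.norm_le_abs_re_add_abs_im ((x : ℂ) + (r : ℂ) * I - (a : ℂ))
  simpa using this

lemma nrm_ge (x r a : ℝ) : |x - a| ≤ ‖(x : ℂ) + (r : ℂ) * I - (a : ℂ)‖ := by
  have := Complex.abs_re_le_norm ((x : ℂ) + (r : ℂ) * I - (a : ℂ))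
  simpa using this

lemma nrm2_le (x r x' r' : ℝ) : ‖(x : ℂ) + (r : ℂ) * I - ((x' : ℂ) + (r' : ℂ) * I)‖ ≤ |x - x'| + |r - r'| := by
  have := Complex.norm_le_abs_re_add_abs_im ((x : ℂ) + (r : ℂ) * I - ((x' : ℂ) + (r' : ℂ) * I))
  simpa using this

section
variable {ε K3 Hm Hp : ℝ} {C : Set ℝ} {cd : CD Hm Hp C} {V0 V : Gap cd} {R : ℝ}

lemma Yim (cd : CD Hm Hp C) (x r N : ℝ) :
    Yf cd x r = (cd.f ((x : ℂ) + (r : ℂ) * I) - (N : ℂ)).im := by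
  simp [Yf]

lemma Yle (cd : CD Hm Hp C) (x r N : ℝ) :
    Yf cd x r ≤ ‖cd.f ((x : ℂ) + (r : ℂ) * I) - (N : ℂ)‖ := by
  rw [Yim cd x r N]
  exact (le_abs_self _).trans (Complex.abs_im_le_norm _)

lemma fY (V0 : Gap cd) (x : ℝ) {r : ℝ} (hr : 0 < r) :
    Yf cd x r = ‖cd.f ((x : ℂ) + (r : ℂ) * I) - (V0.N : ℂ)‖ *
      Real.sin ((V0.g ((x : ℂ) + (r : ℂ) * I)).arg + be V0.a V0.b ((x : ℂ) + (r : ℂ) * I)) := by
  rw [Yim cd x r V0.N]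
  exact w_im V0.a V0.b (mem_Uo x hr)

lemma fR (V0 : Gap cd) (x : ℝ) {r : ℝ} (hr : 0 < r) :
    (cd.f ((x : ℂ) + (r : ℂ) * I)).re - V0.N = ‖cd.f ((x : ℂ) + (r : ℂ) * I) - (V0.N : ℂ)‖ *
      Real.cos ((V0.g ((x : ℂ) + (r : ℂ) * I)).arg + be V0.a V0.b ((x : ℂ) + (r : ℂ) * I)) := by
  have h := w_re V0.a V0.b (mem_Uo x hr) (w := cd.f ((x : ℂ) + (r : ℂ) * I) - (V0.N : ℂ))
  simp only [Complex.sub_re, Complex.ofReal_re] at h
  exact h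

lemma fN (V0 : Gap cd) (x : ℝ) {r : ℝ} (hr : 0 < r) :
    ‖cd.f ((x : ℂ) + (r : ℂ) * I) - (V0.N : ℂ)‖ = ‖V0.g ((x : ℂ) + (r : ℂ) * I)‖ *
      Real.sqrt (‖(x : ℂ) + (r : ℂ) * I - V0.a‖ * ‖(x : ℂ) + (r : ℂ) * I - V0.b‖) :=
  w_norm V0.a V0.b (mem_Uo x hr)

namespace Rt

lemma fpos (H : Rt ε K3 cd V0 V R) (x : ℝ) {r : ℝ} (hr : 0 < r) :
    0 < ‖cd.f ((x : ℂ) + (r : ℂ) * I) - (V0.N : ℂ)‖ :=
  lt_of_lt_of_le (H.ypos x r hr) (Yle cd x r V0.N)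

lemma gpos (H : Rt ε K3 cd V0 V R) (x : ℝ) {r : ℝ} (hr : 0 < r) :
    0 < ‖V0.g ((x : ℂ) + (r : ℂ) * I)‖ := by
  have h1 := H.fpos x hr
  rw [fN V0 x hr] at h1
  by_contra h2
  push Not at h2
  have h3 : ‖V0.g ((x : ℂ) + (r : ℂ) * I)‖ = 0 := le_antisymm h2 (norm_nonneg _)
  rw [h3, zero_mul] at h1
  exact lt_irrefl _ h1

lemma Ndiff (H : Rt ε K3 cd V0 V R) (x : ℝ) {r : ℝ} (hr : 0 < r) :
    |Nf cd x - V0.N| ≤ 2 * ‖cd.f ((x : ℂ) + (r : ℂ) * I) - (V0.N : ℂ)‖ := by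
  have h1 := H.p15 x r hr
  have h2 := Yle cd x r V0.N
  have h3 : |(cd.f ((x : ℂ) + (r : ℂ) * I)).re - V0.N| ≤ ‖cd.f ((x : ℂ) + (r : ℂ) * I) - (V0.N : ℂ)‖ := by
    have := Complex.abs_re_le_norm (cd.f ((x : ℂ) + (r : ℂ) * I) - (V0.N : ℂ))
    simpa using this
  rw [abs_le] at h1 h3 ⊢
  constructor <;> linarith [h1.1, h1.2, h3.1, h3.2]

end Rt

/-- geometry of the two gaps -/
lemma geo (V0 V : Gap cd) (ord : V0.b < V.a) :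
    0 < V0.s ∧ 0 < V.s ∧ V.s / 2 < V.c - V0.b ∧ V.c - V0.b = (V.c - V0.c) - V0.s / 2 ∧
    V.c - V0.a = (V.c - V0.c) + V0.s / 2 ∧ V0.b = V0.c + V0.s / 2 ∧ V0.a = V0.c - V0.s / 2 ∧
    V.a = V.c - V.s / 2 ∧ V.b = V.c + V.s / 2 := by
  have h1 := V0.lt
  have h2 := V.lt
  unfold Gap.s Gap.c
  refine ⟨by linarith, by linarith, by linarith, by linarith, by linarith, by linarith, by linarith,
    by linarith, by linarith⟩

/-- arguments for im <= re -/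
lemma arg_q {w : ℂ} (h1 : 0 < w.re) (h2 : 0 ≤ w.im) (h3 : w.im ≤ w.re) :
    0 ≤ w.arg ∧ w.arg ≤ 28 / 25 := by
  have a0 : 0 ≤ w.arg := Complex.arg_nonneg_iff.mpr h2
  have a1 : w.arg ≤ Real.pi / 2 := by
    have := Complex.abs_arg_le_pi_div_two_iff.mpr h1.le
    exact (le_abs_self _).trans this
  refine ⟨a0, ?_⟩
  have hne : w ≠ 0 := by
    intro h; rw [h] at h1; simp at h1
  have hn : 0 < ‖w‖ := norm_pos_iff.mpr hne
  have h4 := Real.mul_le_sin a0 a1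
  have h5 : Real.sin w.arg = w.im / ‖w‖ := Complex.sin_arg w
  have h6 : ‖w‖ ^ 2 = w.re ^ 2 + w.im ^ 2 := by
    rw [Complex.sq_norm, Complex.normSq_apply]; ring
  have h7 : w.im / ‖w‖ ≤ 708 / 1000 := by
    rw [div_le_iff₀ hn]
    have h8 : w.im ^ 2 ≤ w.re ^ 2 := pow_le_pow_left₀ h2 h3 2
    have h9 : w.im ^ 2 ≤ (708 / 1000 * ‖w‖) ^ 2 := by
      rw [mul_pow, h6]; nlinarith
    exact (pow_le_pow_iff_left₀ h2 (by positivity) (by norm_num)).mp h9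
  have h8 : 2 / Real.pi * w.arg ≤ 708 / 1000 := by linarith [h5 ▸ h4]
  have hpi0 := Real.pi_pos
  have hpi : Real.pi < 3.15 := Real.pi_lt_d2
  have h9 : w.arg = Real.pi / 2 * (2 / Real.pi * w.arg) := by
    field_simp
  rw [h9]
  have h10 : Real.pi / 2 * (2 / Real.pi * w.arg) ≤ Real.pi / 2 * (708 / 1000) :=
    mul_le_mul_of_nonneg_left h8 (by positivity)
  linarith

lemma arg_d {w : ℂ} (h1 : 0 < w.re) (h3 : w.im = w.re) : 7 / 10 ≤ w.arg := by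
  have h2 : 0 < w.im := by rw [h3]; exact h1
  have a0 : 0 ≤ w.arg := Complex.arg_nonneg_iff.mpr h2.le
  have hne : w ≠ 0 := by
    intro h; rw [h] at h1; simp at h1
  have hn : 0 < ‖w‖ := norm_pos_iff.mpr hne
  have h5 : Real.sin w.arg = w.im / ‖w‖ := Complex.sin_arg w
  have h6 : ‖w‖ ^ 2 = w.re ^ 2 + w.im ^ 2 := by
    rw [Complex.sq_norm, Complex.normSq_apply]; ring
  have h7 : 7 / 10 ≤ w.im / ‖w‖ := by
    rw [le_div_iff₀ hn]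
    have h9 : (7 / 10 * ‖w‖) ^ 2 ≤ w.im ^ 2 := by
      rw [mul_pow, h6, h3]; nlinarith
    exact (pow_le_pow_iff_left₀ (by positivity) h2.le (by norm_num)).mp h9
  have h8 := Real.sin_le a0
  linarith

namespace Rt

/-- step 1: the size of V -/
lemma size (H : Rt ε K3 cd V0 V R) : V.s ≤ 90 * ε * (V.c - V0.b) := by
  obtain ⟨g1, g2, g3, g4, g5, g6, g7, g8, g9⟩ := geo V0 V H.ord
  have e0 := H.eps0
  have e1 := H.eps1
  have hR := H.hR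
  set y := V.c - V0.b with hy
  have hy0 : 0 < y := by linarith
  have hR0 : 0 < R := by linarith
  set z : ℂ := (V.c : ℂ) + (y : ℂ) * I with hz
  have hzU : z ∈ Uo := mem_Uo V.c hy0
  have hzc : ‖z - (V0.c : ℂ)‖ ≤ 2 * (V.c - V0.c) := by
    have := nrm_le V.c y V0.c
    rw [abs_of_pos (by linarith : 0 < V.c - V0.c), abs_of_pos hy0] at this
    linarith
  have hα := H.g3a z hzU (by linarith)
  have hα2 : |(V0.g z).arg| ≤ 1 / 100 := by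
    have : ‖z - (V0.c : ℂ)‖ / R ≤ 1 / 500 := by
      rw [div_le_iff₀ hR0]; linarith
    linarith
  have hb1 : (z - (V0.b : ℂ)).re = y ∧ (z - (V0.b : ℂ)).im = y := by
    simp [hz, hy]
  have ha1 : (z - (V0.a : ℂ)).re = V.c - V0.a ∧ (z - (V0.a : ℂ)).im = y := by
    simp [hz]
  have hb2 := arg_q (w := z - (V0.b : ℂ)) (by rw [hb1.1]; exact hy0) (by rw [hb1.2]; exact hy0.le)
    (by rw [hb1.1, hb1.2])
  have hb3 := arg_d (w := z - (V0.b : ℂ)) (by rw [hb1.1]; exact hy0) (by rw [hb1.1, hb1.2])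
  have ha2 := arg_q (w := z - (V0.a : ℂ)) (by rw [ha1.1]; linarith) (by rw [ha1.2]; exact hy0.le)
    (by rw [ha1.1, ha1.2]; linarith)
  have hβ1 : 7 / 20 ≤ be V0.a V0.b z := by unfold be; linarith [ha2.1]
  have hβ2 : be V0.a V0.b z ≤ 28 / 25 := by unfold be; linarith [ha2.2, hb2.2]
  rw [abs_le] at hα2
  have hpi : 3.14 < Real.pi := Real.pi_gt_d2
  have hpi2 : Real.pi < 3.15 := Real.pi_lt_d2
  have hsin := Real.mul_le_sin (x := (V0.g z).arg + be V0.a V0.b z) (by linarith [hα2.1]) (by linarith [hα2.2])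
  have hsin2 : 1 / 5 ≤ Real.sin ((V0.g z).arg + be V0.a V0.b z) := by
    refine le_trans ?_ hsin
    have h1 : (34 : ℝ) / 100 ≤ (V0.g z).arg + be V0.a V0.b z := by linarith [hα2.1]
    have h2 : 2 / Real.pi * (34 / 100) ≤ 2 / Real.pi * ((V0.g z).arg + be V0.a V0.b z) :=
      mul_le_mul_of_nonneg_left h1 (by positivity)
    refine le_trans ?_ h2
    rw [div_mul_eq_mul_div, le_div_iff₀ Real.pi_pos]
    linarith
  set W := ‖cd.f z - (V0.N : ℂ)‖ with hW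
  have hWpos : 0 < W := H.fpos V.c hy0
  have hY : W / 5 ≤ Yf cd V.c y := by
    rw [fY V0 V.c hy0]
    have := mul_le_mul_of_nonneg_left hsin2 hWpos.le
    linarith
  have hNc : Nf cd V.c = V.N := by
    have h := V.lab V.c ⟨by linarith, by linarith⟩
    rw [h]; rfl
  have hdN : |Nf cd V.c - V0.N| ≤ 2 * W := H.Ndiff V.c hy0
  have hv := H.small V.c (by rw [abs_of_pos (by linarith)]; linarith)
    (by intro h; linarith [h.2])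
  have hp := H.p33 y hy0
  have hY2 : Yf cd V.c y ≤ Real.sqrt (y ^ 2 + V.s ^ 2 / 4) * V.kk := (Yle cd V.c y V.N).trans hp
  have hsq : Real.sqrt (y ^ 2 + V.s ^ 2 / 4) ≤ 3 / 2 * y := by
    rw [Real.sqrt_le_left (by positivity)]
    nlinarith
  have hkk := H.kkpos
  have hk2 : V.kk * V.s = 2 * vf cd V.c := by
    rw [H.kk1]; field_simp
  have hY3 : Yf cd V.c y ≤ 3 / 2 * y * V.kk := hY2.trans (mul_le_mul_of_nonneg_right hsq hkk.le)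
  have h1 : V.kk * V.s ≤ V.kk * (90 * ε * y) := by
    rw [hk2]
    have h2 : vf cd V.c ≤ 3 * ε * (2 * W) := hv.trans (mul_le_mul_of_nonneg_left hdN (by positivity))
    have h3 : ε * W ≤ ε * (15 / 2 * y * V.kk) := mul_le_mul_of_nonneg_left (by linarith) e0.le
    nlinarith
  exact le_of_mul_le_mul_left h1 hkk

end Rt

end

end

end Pool.Agent.Helper37.CV.Q7
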