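import Pool.Agent.Helper37.CV.Q7c

set_option autoImplicit false

namespace Pool.Agent.Helper37.CV.Q7

open Complex Filter Topology MeasureTheory Set
open Pool.Agent.Helper36.CV

noncomputable section

lemma log_le_self' {x : ℝ} (hx : 0 ≤ x) : Real.log (1 + x) ≤ x := by
  have := Real.log_le_sub_one_of_pos (x := 1 + x) (by linarith)
  linarith

section
variable {ε K3 Hm Hp : ℝ} {C : Set ℝ} {cd : CD Hm Hp C} {V0 V : Gap cd} {R : ℝ}

namespace Rt

/-- the reference amplitude is bounded by the label difference -/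
lemma amp (H : Rt ε K3 cd V0 V R) :
    ‖V0.g ((V.c : ℂ) + ((V.c - V0.b : ℝ) : ℂ) * I)‖ * Real.sqrt ((V.c - V0.a) * (V.c - V0.b)) ≤
      11 / 10 * Real.exp (4 * K3) * (V.N - V0.N) := by
  obtain ⟨g1, g2, g3, g4, g5, g6, g7, g8, g9⟩ := geo V0 V H.ord
  have e0 := H.eps0
  have e1 := H.eps1
  have hR := H.hR
  have hK1 := H.K1
  have hd := H.dNpos
  set y := V.c - V0.b with hy
  have hy0 : 0 < y := by linarith
  have hR0 : 0 < R := by linarith
  set z : ℂ := (V.c : ℂ) + (y : ℂ) * I with hz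
  have hzU : z ∈ Uo := mem_Uo V.c hy0
  have hey : 0 < ε * y := mul_pos e0 hy0
  have hey2 : ε * y ≤ y := by nlinarith
  set z' : ℂ := (V.c : ℂ) + ((ε * y : ℝ) : ℂ) * I with hz'
  have hzU' : z' ∈ Uo := mem_Uo V.c hey
  have hzc : ‖z - (V0.c : ℂ)‖ ≤ 2 * (V.c - V0.c) := by
    have := nrm_le V.c y V0.c
    rw [abs_of_pos (by linarith : 0 < V.c - V0.c), abs_of_pos hy0] at this
    linarith
  have hzc' : ‖z' - (V0.c : ℂ)‖ ≤ 2 * (V.c - V0.c) := by
    have := nrm_le V.c (ε * y) V0.c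
    rw [abs_of_pos (by linarith : 0 < V.c - V0.c), abs_of_pos hey] at this
    linarith
  have hα := H.g3a z' hzU' (by linarith)
  have hα2 : |(V0.g z').arg| ≤ 1 / 400 := by
    have : ‖z' - (V0.c : ℂ)‖ / R ≤ 1 / 500 := by
      rw [div_le_iff₀ hR0]; linarith
    linarith
  have hb1 : (z' - (V0.b : ℂ)).re = y ∧ (z' - (V0.b : ℂ)).im = ε * y := by
    constructor
    · simp [hz', hy]
    · simp [hz']
  have ha1 : (z' - (V0.a : ℂ)).re = V.c - V0.a ∧ (z' - (V0.a : ℂ)).im = ε * y := by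
    constructor
    · simp [hz']
    · simp [hz']
  have hb2 := arg_small (w := z' - (V0.b : ℂ)) (by rw [hb1.1]; exact hy0) (by rw [hb1.2]; exact hey.le) ε
    (by rw [hb1.1, hb1.2])
  have ha2 := arg_small (w := z' - (V0.a : ℂ)) (by rw [ha1.1]; linarith) (by rw [ha1.2]; exact hey.le) ε
    (by rw [ha1.1, ha1.2]; exact mul_le_mul_of_nonneg_left (by linarith) e0.le)
  have hβ1 : 0 ≤ be V0.a V0.b z' := by unfold be; linarith [ha2.1, hb2.1]
  have hβ2 : be V0.a V0.b z' ≤ 2 * ε := by unfold be; linarith [ha2.2, hb2.2]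
  set θ := (V0.g z').arg + be V0.a V0.b z' with hθ
  rw [abs_le] at hα2
  have hθ1 : |θ| ≤ 1 / 300 := by
    rw [abs_le]; constructor <;> rw [hθ] <;> linarith [hα2.1, hα2.2]
  have hcos : 99 / 100 ≤ Real.cos θ := by
    have := Real.one_sub_sq_div_two_le_cos (x := θ)
    have h2 : θ ^ 2 ≤ (1 / 300) ^ 2 := by
      rw [← sq_abs]; exact pow_le_pow_left₀ (abs_nonneg _) hθ1 2
    norm_num at h2
    linarith
  have hsin : Real.sin θ ≤ 1 / 100 := by
    have := Real.abs_sin_le_one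
    have h3 : |Real.sin θ| ≤ |θ| := Real.abs_sin_le_abs
    have h4 := le_abs_self (Real.sin θ)
    linarith
  set W := ‖cd.f z' - (V0.N : ℂ)‖ with hW
  have hWpos : 0 < W := H.fpos V.c hey
  have hY : Yf cd V.c (ε * y) = W * Real.sin θ := fY V0 V.c hey
  have hRe : (cd.f z').re - V0.N = W * Real.cos θ := fR V0 V.c hey
  have hp := H.p15 V.c (ε * y) hey
  have hNc : Nf cd V.c = V.N := by
    have h := V.lab V.c ⟨by linarith, by linarith⟩
    rw [h]; rfl
  rw [hNc, abs_le] at hp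
  have h1 : 98 / 100 * W ≤ V.N - V0.N := by
    have a1 : W * (99 / 100) ≤ W * Real.cos θ := mul_le_mul_of_nonneg_left hcos hWpos.le
    have a2 : W * Real.sin θ ≤ W * (1 / 100) := mul_le_mul_of_nonneg_left hsin hWpos.le
    have a3 : (cd.f z').re - V.N ≤ Yf cd V.c (ε * y) := hp.2
    linarith
  have h2 : W = ‖V0.g z'‖ * Real.sqrt (‖z' - V0.a‖ * ‖z' - V0.b‖) := fN V0 V.c hey
  have h3 : Real.sqrt ((V.c - V0.a) * (V.c - V0.b)) ≤ Real.sqrt (‖z' - V0.a‖ * ‖z' - V0.b‖) := by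
    apply Real.sqrt_le_sqrt
    have n1 := nrm_ge V.c (ε * y) V0.a
    have n2 := nrm_ge V.c (ε * y) V0.b
    rw [abs_of_pos (by linarith)] at n1 n2
    exact mul_le_mul n1 n2 (by linarith) (norm_nonneg _)
  have h4 : ‖V0.g z'‖ * Real.sqrt ((V.c - V0.a) * (V.c - V0.b)) ≤ W := by
    rw [h2]; exact mul_le_mul_of_nonneg_left h3 (norm_nonneg _)
  have hb := H.g3b z hzU z' hzU' (by linarith) (by linarith)
  have hzz : ‖z - z'‖ ≤ y := by
    have := nrm2_le V.c y V.c (ε * y)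
    rw [sub_self, abs_zero, zero_add, abs_of_nonneg (by linarith : 0 ≤ y - ε * y)] at this
    linarith
  have hzi : z.im = y := im_z V.c y
  have hzi' : z'.im = ε * y := im_z V.c (ε * y)
  rw [hzi, hzi'] at hb
  have hl1 : Real.log (1 + ‖z - z'‖ / y) ≤ 1 := by
    refine (log_le_self' (by positivity)).trans ?_
    rw [div_le_one hy0]; exact hzz
  have hl2 : ε * Real.log (1 + ‖z - z'‖ / (ε * y)) ≤ 1 := by
    have a1 := log_le_self' (x := ‖z - z'‖ / (ε * y)) (by positivity)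
    have a2 : ε * (‖z - z'‖ / (ε * y)) = ‖z - z'‖ / y := by field_simp
    have a3 := mul_le_mul_of_nonneg_left a1 e0.le
    rw [a2] at a3
    refine a3.trans ?_
    rw [div_le_one hy0]; exact hzz
  have hl3 : ‖z - z'‖ / R ≤ 1 := by
    rw [div_le_one hR0]; linarith
  have h5 : Real.log ‖V0.g z‖ - Real.log ‖V0.g z'‖ ≤ K3 * 4 := by
    refine (le_abs_self _).trans (hb.trans ?_)
    apply mul_le_mul_of_nonneg_left _ (by linarith)
    have a4 : ε * Real.log (1 + ‖z - z'‖ / y) ≤ ε * 1 := mul_le_mul_of_nonneg_left hl1 e0.le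
    nlinarith
  have hg := H.gpos V.c hy0
  have hg' := H.gpos V.c hey
  have h6 : ‖V0.g z‖ ≤ Real.exp (4 * K3) * ‖V0.g z'‖ := by
    rw [← Real.exp_log hg, ← Real.exp_log hg', ← Real.exp_add]
    apply Real.exp_le_exp.mpr
    change Real.log ‖V0.g z‖ ≤ 4 * K3 + Real.log ‖V0.g z'‖
    linarith
  have hE := Real.exp_pos (4 * K3)
  calc ‖V0.g z‖ * Real.sqrt ((V.c - V0.a) * (V.c - V0.b))
      ≤ (Real.exp (4 * K3) * ‖V0.g z'‖) * Real.sqrt ((V.c - V0.a) * (V.c - V0.b)) :=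
        mul_le_mul_of_nonneg_right h6 (Real.sqrt_nonneg _)
    _ = Real.exp (4 * K3) * (‖V0.g z'‖ * Real.sqrt ((V.c - V0.a) * (V.c - V0.b))) := by ring
    _ ≤ Real.exp (4 * K3) * W := mul_le_mul_of_nonneg_left h4 hE.le
    _ ≤ 11 / 10 * Real.exp (4 * K3) * (V.N - V0.N) := by
        have : W ≤ 11 / 10 * (V.N - V0.N) := by linarith
        calc Real.exp (4 * K3) * W ≤ Real.exp (4 * K3) * (11 / 10 * (V.N - V0.N)) :=
              mul_le_mul_of_nonneg_left this hE.le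
          _ = _ := by ring

/-- log bound, general form -/
lemma logb (H : Rt ε K3 cd V0 V R) (t r Z P Q : ℝ) (hr : 0 < r)
    (h1 : ‖(t : ℂ) + (r : ℂ) * I - (V0.c : ℂ)‖ ≤ R / 4)
    (hZ : ‖(t : ℂ) + (r : ℂ) * I - ((V.c : ℂ) + ((V.c - V0.b : ℝ) : ℂ) * I)‖ ≤ Z) (hZR : Z ≤ R)
    (hP : 1 + Z / r ≤ P) (hQ : 1 + Z / (V.c - V0.b) ≤ Q) :
    Real.log ‖V0.g ((t : ℂ) + (r : ℂ) * I)‖ ≤
      Real.log ‖V0.g ((V.c : ℂ) + ((V.c - V0.b : ℝ) : ℂ) * I)‖ +
      (K3 * ε * (1 + Real.log P + Real.log Q) + K3) := by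
  obtain ⟨g1, g2, g3, g4, g5, g6, g7, g8, g9⟩ := geo V0 V H.ord
  have e0 := H.eps0
  have e1 := H.eps1
  have hR := H.hR
  have hK1 := H.K1
  set y := V.c - V0.b with hy
  have hy0 : 0 < y := by linarith
  have hR0 : 0 < R := by linarith
  set z : ℂ := (V.c : ℂ) + (y : ℂ) * I with hz
  have hzU : z ∈ Uo := mem_Uo V.c hy0
  have hzc : ‖z - (V0.c : ℂ)‖ ≤ 2 * (V.c - V0.c) := by
    have := nrm_le V.c y V0.c
    rw [abs_of_pos (by linarith : 0 < V.c - V0.c), abs_of_pos hy0] at this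
    linarith
  set w : ℂ := (t : ℂ) + (r : ℂ) * I with hw
  have hwU : w ∈ Uo := mem_Uo t hr
  have hb := H.g3b w hwU z hzU h1 (by linarith)
  have hzi : z.im = y := im_z V.c y
  have hwi : w.im = r := im_z t r
  rw [hzi, hwi] at hb
  have hn := norm_nonneg (w - z)
  have l1 : Real.log (1 + ‖w - z‖ / r) ≤ Real.log P := by
    apply Real.log_le_log (by positivity)
    refine le_trans ?_ hP
    gcongr
  have l2 : Real.log (1 + ‖w - z‖ / y) ≤ Real.log Q := by
    apply Real.log_le_log (by positivity)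
    refine le_trans ?_ hQ
    gcongr
  have l3 : ‖w - z‖ / R ≤ 1 := by
    rw [div_le_one hR0]; linarith
  have h5 : Real.log ‖V0.g w‖ - Real.log ‖V0.g z‖ ≤ K3 * ε * (1 + Real.log P + Real.log Q) + K3 := by
    refine (le_abs_self _).trans (hb.trans ?_)
    have a1 : ε * (1 + Real.log (1 + ‖w - z‖ / r) + Real.log (1 + ‖w - z‖ / y)) ≤
        ε * (1 + Real.log P + Real.log Q) := mul_le_mul_of_nonneg_left (by linarith) e0.le
    have a2 : K3 * (ε * (1 + Real.log (1 + ‖w - z‖ / r) + Real.log (1 + ‖w - z‖ / y)) + ‖w - z‖ / R) ≤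
        K3 * (ε * (1 + Real.log P + Real.log Q) + 1) := mul_le_mul_of_nonneg_left (by linarith) (by linarith)
    linarith
  linarith

end Rt

end

end

end Pool.Agent.Helper37.CV.Q7
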