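import Pool.Agent.Helper37.CV.Q7d

set_option autoImplicit false

namespace Pool.Agent.Helper37.CV.Q7

open Complex Filter Topology MeasureTheory Set
open Pool.Agent.Helper36.CV

noncomputable section

lemma log4 : Real.log 4 ≤ 3 := by
  have := Real.log_le_sub_one_of_pos (x := 4) (by norm_num)
  linarith

lemma exp4 (A k l m : ℝ) (hA : 0 < A) :
    A * Real.exp k * Real.exp l * Real.exp m = Real.exp (Real.log A + k + l + m) := by
  rw [Real.exp_add, Real.exp_add, Real.exp_add, Real.exp_log hA]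

lemma exp3 (A k l : ℝ) (hA : 0 < A) :
    A * Real.exp k * Real.exp l = Real.exp (Real.log A + k + l) := by
  rw [Real.exp_add, Real.exp_add, Real.exp_log hA]

lemma log3 : Real.log 3 ≤ 2 := by
  have := Real.log_le_sub_one_of_pos (x := 3) (by norm_num)
  linarith

section
variable {ε K3 Hm Hp : ℝ} {C : Set ℝ} {cd : CD Hm Hp C} {V0 V : Gap cd} {R : ℝ}

/-- the reference amplitude -/
def Am (V0 V : Gap cd) : ℝ := ‖V0.g ((V.c : ℂ) + ((V.c - V0.b : ℝ) : ℂ) * I)‖

namespace Rt

lemma ampos (H : Rt ε K3 cd V0 V R) : 0 < Am V0 V := by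
  obtain ⟨g1, g2, g3, g4, g5, g6, g7, g8, g9⟩ := geo V0 V H.ord
  exact H.gpos V.c (by linarith)

/-- amplitude to the left of V0 -/
lemma gleft (H : Rt ε K3 cd V0 V R) (d : ℝ) (hd : 0 < d) (hd2 : d ≤ R / 16) :
    ‖V0.g (((V0.a - d : ℝ) : ℂ) + (d : ℂ) * I)‖ ≤
      Am V0 V * Real.exp (K3 + 1) * ((V.c - V0.c) / (V.c - V0.b)) ^ (K3 * ε) *
        (((V.c - V0.c) + d) / Real.sqrt ((V.c - V0.c) * d)) := by
  obtain ⟨g1, g2, g3, g4, g5, g6, g7, g8, g9⟩ := geo V0 V H.ord
  have e0 := H.eps0
  have e1 := H.eps1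
  have hR := H.hR
  have hK1 := H.K1
  have heK := H.eK
  have hA := H.ampos
  set x := V.c - V0.c with hx
  set y := V.c - V0.b with hy
  have hy0 : 0 < y := by linarith
  have hx0 : 0 < x := by linarith
  have hyx : y ≤ x := by linarith
  have hη0 : 0 ≤ K3 * ε := by positivity
  have hn1 : ‖((V0.a - d : ℝ) : ℂ) + (d : ℂ) * I - (V0.c : ℂ)‖ ≤ R / 4 := by
    have := nrm_le (V0.a - d) d V0.c
    rw [abs_of_pos hd, abs_of_neg (by linarith : V0.a - d - V0.c < 0)] at this
    linarith
  have hn2 : ‖((V0.a - d : ℝ) : ℂ) + (d : ℂ) * I - ((V.c : ℂ) + ((V.c - V0.b : ℝ) : ℂ) * I)‖ ≤ 3 * (x + d) := by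
    have := nrm2_le (V0.a - d) d V.c (V.c - V0.b)
    rw [abs_of_neg (by linarith : V0.a - d - V.c < 0)] at this
    have h2 : |d - (V.c - V0.b)| ≤ d + y := by
      rw [abs_le]; constructor <;> linarith
    linarith
  have hP : 1 + 3 * (x + d) / d ≤ 4 * ((x + d) / d) := by
    have : (x + d) / d = x / d + 1 := by field_simp
    have h0 : 0 < x / d := by positivity
    have h3 : 3 * (x + d) / d = 3 * ((x + d) / d) := by ring
    rw [h3, this]; linarith
  have hQ : 1 + 3 * (x + d) / y ≤ 4 * (((x + d) / x) * (x / y)) := by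
    have h3 : ((x + d) / x) * (x / y) = (x + d) / y := by field_simp
    rw [h3]
    have h4 : 1 ≤ (x + d) / y := by rw [one_le_div hy0]; linarith
    have h5 : 3 * (x + d) / y = 3 * ((x + d) / y) := by ring
    rw [h5]; linarith
  have hl := H.logb (V0.a - d) d (3 * (x + d)) _ _ hd hn1 hn2 (by linarith) hP hQ
  have hg := H.gpos (V0.a - d) hd
  have l1 : Real.log (4 * ((x + d) / d)) = Real.log 4 + Real.log ((x + d) / d) :=
    Real.log_mul (by norm_num) (by positivity)
  have l2 : Real.log (4 * (((x + d) / x) * (x / y))) = Real.log 4 + (Real.log ((x + d) / x) + Real.log (x / y)) := by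
    rw [Real.log_mul (by norm_num) (by positivity), Real.log_mul (by positivity) (by positivity)]
  rw [l1, l2] at hl
  have p1 : 0 ≤ Real.log ((x + d) / d) := Real.log_nonneg (by rw [one_le_div hd]; linarith)
  have p2 : 0 ≤ Real.log ((x + d) / x) := Real.log_nonneg (by rw [one_le_div hx0]; linarith)
  have q1 : K3 * ε * Real.log ((x + d) / d) ≤ 1 / 2 * Real.log ((x + d) / d) :=
    mul_le_mul_of_nonneg_right (by linarith) p1
  have q2 : K3 * ε * Real.log ((x + d) / x) ≤ 1 / 2 * Real.log ((x + d) / x) :=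
    mul_le_mul_of_nonneg_right (by linarith) p2
  have q3 : K3 * ε * (1 + 2 * Real.log 4) ≤ 1 := by
    have := log4
    have h4 : (1 + 2 * Real.log 4) ≤ 7 := by linarith
    have h5 : K3 * ε * (1 + 2 * Real.log 4) ≤ K3 * ε * 7 := mul_le_mul_of_nonneg_left h4 hη0
    linarith
  have hsum : Real.log ‖V0.g (((V0.a - d : ℝ) : ℂ) + (d : ℂ) * I)‖ ≤
      Real.log (Am V0 V) + (K3 + 1) + K3 * ε * Real.log (x / y) +
        (1 / 2 * Real.log ((x + d) / d) + 1 / 2 * Real.log ((x + d) / x)) := by
    have : Am V0 V = ‖V0.g ((V.c : ℂ) + ((V.c - V0.b : ℝ) : ℂ) * I)‖ := rfl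
    rw [this]
    have h9 := hl
    linarith
  rw [← Real.exp_log hg]
  have hR1 : Am V0 V * Real.exp (K3 + 1) * (x / y) ^ (K3 * ε) * ((x + d) / Real.sqrt (x * d)) =
      Real.exp (Real.log (Am V0 V) + (K3 + 1) + K3 * ε * Real.log (x / y) +
        (1 / 2 * Real.log ((x + d) / d) + 1 / 2 * Real.log ((x + d) / x))) := by
    rw [← exp4 _ _ _ _ hA, Real.rpow_def_of_pos (by positivity)]
    have e1 : Real.exp (1 / 2 * Real.log ((x + d) / d) + 1 / 2 * Real.log ((x + d) / x)) =
        (x + d) / Real.sqrt (x * d) := by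
      have h1 : 1 / 2 * Real.log ((x + d) / d) + 1 / 2 * Real.log ((x + d) / x) =
          Real.log ((x + d) / Real.sqrt (x * d)) := by
        rw [Real.log_div (by positivity) (by positivity), Real.log_div (by positivity) (by positivity),
          Real.log_div (by positivity) (by positivity), Real.log_sqrt (by positivity),
          Real.log_mul hx0.ne' hd.ne']
        ring
      rw [h1, Real.exp_log (by positivity)]
    rw [e1, mul_comm (Real.log (x / y)) (K3 * ε)]
  rw [hR1]
  exact Real.exp_le_exp.mpr hsum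

/-- amplitude high above V0 -/
lemma ghigh (H : Rt ε K3 cd V0 V R) :
    ‖V0.g ((V0.c : ℂ) + ((R / 16 : ℝ) : ℂ) * I)‖ ≤
      Am V0 V * Real.exp (K3 + 1) * (R / (V.c - V0.b)) ^ (K3 * ε) := by
  obtain ⟨g1, g2, g3, g4, g5, g6, g7, g8, g9⟩ := geo V0 V H.ord
  have e0 := H.eps0
  have e1 := H.eps1
  have hR := H.hR
  have hK1 := H.K1
  have heK := H.eK
  have hA := H.ampos
  set x := V.c - V0.c with hx
  set y := V.c - V0.b with hy
  have hy0 : 0 < y := by linarith
  have hx0 : 0 < x := by linarith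
  have hyx : y ≤ x := by linarith
  have hR0 : 0 < R := by linarith
  have hρ : 0 < R / 16 := by linarith
  have hη0 : 0 ≤ K3 * ε := by positivity
  have hn1 : ‖(V0.c : ℂ) + ((R / 16 : ℝ) : ℂ) * I - (V0.c : ℂ)‖ ≤ R / 4 := by
    have := nrm_le V0.c (R / 16) V0.c
    rw [sub_self, abs_zero, abs_of_pos hρ] at this
    linarith
  have hn2 : ‖(V0.c : ℂ) + ((R / 16 : ℝ) : ℂ) * I - ((V.c : ℂ) + ((V.c - V0.b : ℝ) : ℂ) * I)‖ ≤ R / 8 := by
    have := nrm2_le V0.c (R / 16) V.c (V.c - V0.b)
    rw [abs_of_neg (by linarith : V0.c - V.c < 0), abs_of_pos (by linarith : 0 < R / 16 - (V.c - V0.b))] at this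
    linarith
  have hP : 1 + (R / 8) / (R / 16) ≤ 3 := by
    have : (R / 8) / (R / 16) = 2 := by field_simp; norm_num
    rw [this]; norm_num
  have hQ : 1 + (R / 8) / y ≤ R / y := by
    rw [← sub_nonneg]
    have : R / y - (1 + (R / 8) / y) = (R - y - R / 8) / y := by
      field_simp
      ring
    rw [this]
    apply div_nonneg _ hy0.le
    linarith
  have hl := H.logb V0.c (R / 16) (R / 8) _ _ hρ hn1 hn2 (by linarith) hP hQ
  have hg := H.gpos V0.c hρ
  have q3 : K3 * ε * (1 + Real.log 3) ≤ 1 := by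
    have := log3
    have h4 : (1 + Real.log 3) ≤ 3 := by linarith
    have h5 : K3 * ε * (1 + Real.log 3) ≤ K3 * ε * 3 := mul_le_mul_of_nonneg_left h4 hη0
    linarith
  have hsum : Real.log ‖V0.g ((V0.c : ℂ) + ((R / 16 : ℝ) : ℂ) * I)‖ ≤
      Real.log (Am V0 V) + (K3 + 1) + K3 * ε * Real.log (R / y) := by
    have : Am V0 V = ‖V0.g ((V.c : ℂ) + ((V.c - V0.b : ℝ) : ℂ) * I)‖ := rfl
    rw [this]
    linarith
  rw [← Real.exp_log hg]
  have hR1 : Am V0 V * Real.exp (K3 + 1) * (R / y) ^ (K3 * ε) =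
      Real.exp (Real.log (Am V0 V) + (K3 + 1) + K3 * ε * Real.log (R / y)) := by
    rw [← exp3 _ _ _ hA, Real.rpow_def_of_pos (by positivity),
      mul_comm (Real.log (R / y)) (K3 * ε)]
  rw [hR1]
  exact Real.exp_le_exp.mpr hsum

/-- the first comparison function -/
def B1 (ε K3 : ℝ) (V0 V : Gap cd) (t : ℝ) : ℝ :=
  (14 * ε * (Am V0 V * Real.exp (K3 + 1) * ((V.c - V0.c) / (V.c - V0.b)) ^ (K3 * ε))) *
    (1 / (Real.sqrt ((V.c - V0.c) * (V0.a - t)) * ((V.c - V0.c) + (V0.a - t))))

/-- the second comparison function -/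
def B2 (cd : CD Hm Hp C) (V0 : Gap cd) (R : ℝ) (t : ℝ) : ℝ :=
  (3 / (R / 16) ^ 2) * (vf cd t * ((R / 16) / ((t - V0.c) ^ 2 + (R / 16) ^ 2)))

lemma qr_nonneg_right {a b t : ℝ} (h : a ≤ t) : 0 ≤ qr a b t := by
  unfold qr
  split_ifs with h1
  · exact Real.sqrt_nonneg _
  · push Not at h1
    have : Real.sqrt ((t - a) * (t - b)) = 0 := by
      apply Real.sqrt_eq_zero_of_nonpos
      exact mul_nonpos_of_nonneg_of_nonpos (by linarith) (by linarith)
    rw [this]; simp

lemma qr_mul_nonneg {a b t c : ℝ} (h1 : a < c) (h2 : c < b) : 0 ≤ qr a b t * (t - c) := by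
  unfold qr
  split_ifs with h
  · exact mul_nonneg (Real.sqrt_nonneg _) (by linarith)
  · push Not at h
    rcases le_or_gt t c with h3 | h3
    · exact mul_nonneg_of_nonpos_of_nonpos (by linarith [Real.sqrt_nonneg ((t - a) * (t - b))]) (by linarith)
    · have : Real.sqrt ((t - a) * (t - b)) = 0 := by
        apply Real.sqrt_eq_zero_of_nonpos
        exact mul_nonpos_of_nonneg_of_nonpos (by linarith) (by linarith)
      rw [this]; simp

lemma B1_nonneg (H : Rt ε K3 cd V0 V R) (t : ℝ) : 0 ≤ B1 ε K3 V0 V t := by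
  obtain ⟨g1, g2, g3, g4, g5, g6, g7, g8, g9⟩ := geo V0 V H.ord
  have e0 := H.eps0
  have hA := H.ampos
  unfold B1
  have hx0 : 0 < V.c - V0.c := by linarith
  have hy0 : 0 < V.c - V0.b := by linarith
  apply mul_nonneg
  · positivity
  · rcases le_or_gt (V0.a - t) 0 with h | h
    · have : Real.sqrt ((V.c - V0.c) * (V0.a - t)) = 0 :=
        Real.sqrt_eq_zero_of_nonpos (mul_nonpos_of_nonneg_of_nonpos hx0.le h)
      rw [this]; simp
    · positivity

lemma B2_nonneg (H : Rt ε K3 cd V0 V R) (t : ℝ) : 0 ≤ B2 cd V0 R t := by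
  obtain ⟨g1, g2, g3, g4, g5, g6, g7, g8, g9⟩ := geo V0 V H.ord
  have hR := H.hR
  have hR0 : 0 < R := by linarith
  have hv := H.vnn t
  unfold B2
  positivity

/-- the pointwise bound -/
lemma pw (H : Rt ε K3 cd V0 V R) (t : ℝ) :
    -(B1 ε K3 V0 V t + B2 cd V0 R t) ≤ vf cd t / (V0.q t * V.q t * (t - V.c)) := by
  obtain ⟨g1, g2, g3, g4, g5, g6, g7, g8, g9⟩ := geo V0 V H.ord
  have b1 := H.B1_nonneg t
  have b2 := H.B2_nonneg t
  have hv := H.vnn t
  have hVm : 0 ≤ V.q t * (t - V.c) := qr_mul_nonneg (by linarith) (by linarith)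
  rcases le_or_gt V0.a t with h | h
  · have h1 : 0 ≤ V0.q t := qr_nonneg_right h
    have : 0 ≤ vf cd t / (V0.q t * V.q t * (t - V.c)) := by
      apply div_nonneg hv
      rw [mul_assoc]
      exact mul_nonneg h1 hVm
    linarith
  · have e0 := H.eps0
    have e1 := H.eps1
    have hR := H.hR
    have hK1 := H.K1
    have hA := H.ampos
    have hs := H.size
    set x := V.c - V0.c with hx
    set y := V.c - V0.b with hy
    have hy0 : 0 < y := by linarith
    have hx0 : 0 < x := by linarith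
    have hyx : y ≤ x := by linarith
    have hR0 : 0 < R := by linarith
    set d := V0.a - t with hd
    have hd0 : 0 < d := by linarith
    -- the two roots
    set h2 := V0.s with hh2
    have q0e : V0.q t = -Real.sqrt (d * (d + h2)) := by
      show qr V0.a V0.b t = _
      unfold qr
      rw [if_neg (by linarith)]
      congr 2
      have i1 : t - V0.a = -d := by rw [hd]; ring
      have i2 : t - V0.b = -(d + h2) := by linarith
      rw [i1, i2]; ring
    have q0p : 0 < Real.sqrt (d * (d + h2)) := Real.sqrt_pos.mpr (by positivity)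
    have qVe : V.q t * (t - V.c) = (V.c - t) * Real.sqrt ((V.a - t) * (V.b - t)) := by
      have : V.q t = -Real.sqrt ((V.a - t) * (V.b - t)) := by
        show qr V.a V.b t = _
        unfold qr
        rw [if_neg (by linarith)]
        congr 2
        ring
      rw [this]; ring
    have hXt : V.c - t = d + h2 / 2 + x := by linarith
    have hXt0 : 0 < V.c - t := by rw [hXt]; linarith
    have hsq : 9 / 10 * (V.c - t) ≤ Real.sqrt ((V.a - t) * (V.b - t)) := by
      apply Real.le_sqrt_of_sq_le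
      have i1 : (V.a - t) * (V.b - t) = (V.c - t) ^ 2 - V.s ^ 2 / 4 := by
        rw [g8, g9]; ring
      have i2 : V.s ≤ (V.c - t) / 100 := by
        have : 90 * ε * y ≤ y / 100 := by nlinarith
        linarith
      have i3 : V.s ^ 2 ≤ ((V.c - t) / 100) ^ 2 := pow_le_pow_left₀ g2.le i2 2
      rw [i1]
      nlinarith
    set m := V.q t * (t - V.c) with hm
    have hm1 : 9 / 10 * (V.c - t) ^ 2 ≤ m := by
      rw [qVe]
      have := mul_le_mul_of_nonneg_left hsq hXt0.le
      linarith [this, sq (V.c - t)]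
    have hm0 : 0 < m := lt_of_lt_of_le (by positivity) hm1
    have hF : vf cd t / (V0.q t * V.q t * (t - V.c)) = -(vf cd t / (Real.sqrt (d * (d + h2)) * m)) := by
      rw [mul_assoc, ← hm, q0e, neg_mul, div_neg]
    rw [hF]
    apply neg_le_neg
    have hmx : 9 / 10 * (x + d) ^ 2 ≤ m := by
      refine le_trans ?_ hm1
      have : x + d ≤ V.c - t := by linarith
      have h9 : (x + d) ^ 2 ≤ (V.c - t) ^ 2 := pow_le_pow_left₀ (by linarith) this 2
      linarith
    rcases le_or_gt d (R / 16) with hdR | hdR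
    · -- inside the window
      have hsm := H.small t (by
          have : t - V0.c = -(d + h2 / 2) := by linarith
          rw [this, abs_neg, abs_of_pos (by linarith)]
          linarith) (by intro hh; linarith [hh.1])
      have hN := H.Ndiff t hd0
      have hfn := fN V0 t hd0
      have hgl := H.gleft d hd0 hdR
      have ht : V0.a - d = t := by rw [hd]; ring
      rw [ht] at hgl
      have hr2 : Real.sqrt (‖(t : ℂ) + (d : ℂ) * I - V0.a‖ * ‖(t : ℂ) + (d : ℂ) * I - V0.b‖) ≤
          2 * Real.sqrt (d * (d + h2)) := by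
        have n1 := nrm_le t d V0.a
        have n2 := nrm_le t d V0.b
        rw [abs_of_neg (by linarith : t - V0.a < 0), abs_of_pos hd0] at n1
        rw [abs_of_neg (by linarith : t - V0.b < 0), abs_of_pos hd0] at n2
        have n3 : ‖(t : ℂ) + (d : ℂ) * I - V0.a‖ ≤ 2 * d := by linarith
        have n4 : ‖(t : ℂ) + (d : ℂ) * I - V0.b‖ ≤ 2 * (d + h2) := by linarith
        have n5 : ‖(t : ℂ) + (d : ℂ) * I - V0.a‖ * ‖(t : ℂ) + (d : ℂ) * I - V0.b‖ ≤
            (2 * d) * (2 * (d + h2)) := mul_le_mul n3 n4 (norm_nonneg _) (by linarith)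
        have n6 : (2 * d) * (2 * (d + h2)) = 2 ^ 2 * (d * (d + h2)) := by ring
        rw [n6] at n5
        refine (Real.sqrt_le_sqrt n5).trans ?_
        rw [Real.sqrt_mul (by positivity), Real.sqrt_sq (by norm_num)]
      set G := ‖V0.g ((t : ℂ) + (d : ℂ) * I)‖ with hG
      have hG0 : 0 ≤ G := norm_nonneg _
      set S := Real.sqrt (d * (d + h2)) with hS
      have hv2 : vf cd t ≤ 12 * ε * G * S := by
        have h1 : vf cd t ≤ 3 * ε * (2 * (G * (2 * S))) := by
          refine hsm.trans (mul_le_mul_of_nonneg_left ?_ (by positivity))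
          refine hN.trans ?_
          rw [hfn]
          have := mul_le_mul_of_nonneg_left hr2 hG0
          linarith
        linarith
      have h3 : vf cd t / (S * m) ≤ 12 * ε * G / m := by
        rw [div_le_div_iff₀ (by positivity) hm0]
        have := mul_le_mul_of_nonneg_right hv2 hm0.le
        linarith
      have h4 : 12 * ε * G / m ≤ 12 * ε * G / (9 / 10 * (x + d) ^ 2) :=
        div_le_div_of_nonneg_left (by positivity) (by positivity) hmx
      have h5 : 12 * ε * G / (9 / 10 * (x + d) ^ 2) ≤ B1 ε K3 V0 V t := by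
        unfold B1
        rw [← hx, ← hy, ← hd]
        set E := Am V0 V * Real.exp (K3 + 1) * (x / y) ^ (K3 * ε) with hE
        have hE0 : 0 < E := by positivity
        have hsx : 0 < Real.sqrt (x * d) := Real.sqrt_pos.mpr (by positivity)
        rw [div_le_iff₀ (by positivity)]
        have i1 : 14 * ε * E * (1 / (Real.sqrt (x * d) * (x + d))) * (9 / 10 * (x + d) ^ 2) =
            63 / 5 * ε * (E * ((x + d) / Real.sqrt (x * d))) := by
          field_simp
          ring
        rw [i1]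
        have i2 : ε * G ≤ ε * (E * ((x + d) / Real.sqrt (x * d))) := mul_le_mul_of_nonneg_left hgl e0.le
        have i3 : 0 ≤ ε * (E * ((x + d) / Real.sqrt (x * d))) := by positivity
        nlinarith
      linarith
    · -- outside
      have h3 : vf cd t / (Real.sqrt (d * (d + h2)) * m) ≤ B2 cd V0 R t := by
        unfold B2
        have hS : d ≤ Real.sqrt (d * (d + h2)) := by
          apply Real.le_sqrt_of_sq_le
          nlinarith
        have i1 : (t - V0.c) ^ 2 = (d + h2 / 2) ^ 2 := by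
          have : t - V0.c = -(d + h2 / 2) := by linarith
          rw [this]; ring
        rw [i1]
        set ρ := R / 16 with hρ
        have hρ0 : 0 < ρ := by positivity
        have i2 : 9 / 10 * (d + h2 / 2) ^ 2 ≤ m := by
          refine le_trans ?_ hm1
          have h8 : d + h2 / 2 ≤ V.c - t := by linarith
          have h9 : (d + h2 / 2) ^ 2 ≤ (V.c - t) ^ 2 := pow_le_pow_left₀ (by positivity) h8 2
          linarith
        have i3 : ρ ^ 2 ≤ (d + h2 / 2) ^ 2 := pow_le_pow_left₀ hρ0.le (by linarith) 2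
        have i4 : ρ * (9 / 20 * ((d + h2 / 2) ^ 2 + ρ ^ 2)) ≤ Real.sqrt (d * (d + h2)) * m := by
          apply mul_le_mul (by linarith) (by linarith) (by positivity) (by positivity)
        have i5 : vf cd t / (Real.sqrt (d * (d + h2)) * m) ≤
            vf cd t / (ρ * (9 / 20 * ((d + h2 / 2) ^ 2 + ρ ^ 2))) :=
          div_le_div_of_nonneg_left hv (by positivity) i4
        refine i5.trans ?_
        have i6 : vf cd t / (ρ * (9 / 20 * ((d + h2 / 2) ^ 2 + ρ ^ 2))) =
            (20 / 9 / ρ ^ 2) * (vf cd t * (ρ / ((d + h2 / 2) ^ 2 + ρ ^ 2))) := by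
          field_simp
        rw [i6]
        apply mul_le_mul_of_nonneg_right _ (by positivity)
        gcongr
        norm_num
      linarith

end Rt

end

end

end Pool.Agent.Helper37.CV.Q7
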