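import Pool.Agent.Helper37.CV.Q7e

set_option autoImplicit false

namespace Pool.Agent.Helper37.CV.Q7

open Complex Filter Topology MeasureTheory Set
open Pool.Agent.Helper36.CV

noncomputable section

section
variable {ε K3 Hm Hp : ℝ} {C : Set ℝ} {cd : CD Hm Hp C} {V0 V : Gap cd} {R : ℝ}

/-- lower bound for the arcsine average -/
lemma av_lower (V0 V : Gap cd) (ord : V0.b < V.a) :
    (V.c - V0.c) / (Real.sqrt ((V.c - V0.a) * (V.c - V0.b))) ^ 3 ≤
      V0.av (fun t => 1 / ((t - V.c) * V.q t)) := by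
  obtain ⟨g1, g2, g3, g4, g5, g6, g7, g8, g9⟩ := geo V0 V ord
  have hX : V0.b < V.c := by linarith
  obtain ⟨i1, i2⟩ := av_int V0.a V0.b V.c V0.lt hX
  have hab := V0.lt
  have hpos : ∀ t ∈ Icc V0.a V0.b, 0 < (V.a - t) * (V.b - t) := by
    intro t ht
    exact mul_pos (by linarith [ht.2]) (by linarith [ht.2])
  have hqe : ∀ t ∈ Icc V0.a V0.b, (t - V.c) * V.q t = (V.c - t) * Real.sqrt ((V.a - t) * (V.b - t)) := by
    intro t ht
    have : V.q t = -Real.sqrt ((V.a - t) * (V.b - t)) := by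
      show qr V.a V.b t = _
      unfold qr
      rw [if_neg (by linarith [ht.2])]
      congr 2
      ring
    rw [this]; ring
  have hqp : ∀ t ∈ Icc V0.a V0.b, 0 < (V.c - t) * Real.sqrt ((V.a - t) * (V.b - t)) := by
    intro t ht
    exact mul_pos (by linarith [ht.2]) (Real.sqrt_pos.mpr (hpos t ht))
  have hcont : ContinuousOn (fun t => (V.c - t) ^ 2 * (1 / ((V.c - t) * Real.sqrt ((V.a - t) * (V.b - t)))))
      (uIcc V0.a V0.b) := by
    rw [uIcc_of_le hab.le]
    apply ContinuousOn.mul (by fun_prop)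
    apply ContinuousOn.div continuousOn_const (by fun_prop)
    intro t ht
    exact (hqp t ht).ne'
  have i3 := i1.mul_continuousOn hcont
  have i4 : IntervalIntegrable (fun t => 1 / ((t - V.c) * V.q t) / Real.sqrt ((t - V0.a) * (V0.b - t)))
      volume V0.a V0.b := by
    refine i3.congr ?_
    rw [uIoc_of_le hab.le]
    intro t ht
    have ht2 : t ∈ Icc V0.a V0.b := ⟨ht.1.le, ht.2⟩
    have h1 := hqp t ht2
    have h3 : 0 < V.c - t := by linarith [ht.2]
    show 1 / ((V.c - t) ^ 2 * Real.sqrt ((t - V0.a) * (V0.b - t))) *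
      ((V.c - t) ^ 2 * (1 / ((V.c - t) * Real.sqrt ((V.a - t) * (V.b - t))))) =
      1 / ((t - V.c) * V.q t) / Real.sqrt ((t - V0.a) * (V0.b - t))
    rw [hqe t ht2]
    rw [one_div, mul_inv, div_eq_mul_inv (1 / ((V.c - t) * Real.sqrt ((V.a - t) * (V.b - t))))]
    field_simp
  have hmono : ∫ t in V0.a..V0.b, 1 / ((V.c - t) ^ 2 * Real.sqrt ((t - V0.a) * (V0.b - t))) ≤
      ∫ t in V0.a..V0.b, 1 / ((t - V.c) * V.q t) / Real.sqrt ((t - V0.a) * (V0.b - t)) := by
    apply intervalIntegral.integral_mono_on hab.le i1 i4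
    intro t ht
    rw [hqe t ht, ← one_div_mul_one_div, div_eq_mul_one_div (1 / ((V.c - t) * Real.sqrt ((V.a - t) * (V.b - t))))]
    apply mul_le_mul_of_nonneg_right _ (by positivity)
    apply one_div_le_one_div_of_le (hqp t ht)
    rw [sq]
    apply mul_le_mul_of_nonneg_left _ (by linarith [ht.2])
    rw [Real.sqrt_le_left (by linarith [ht.2])]
    rw [g8, g9]
    nlinarith [sq_nonneg V.s]
  unfold Gap.av
  rw [i2] at hmono
  have hc : V0.c = (V0.a + V0.b) / 2 := rfl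
  rw [← hc] at hmono
  have h5 := mul_le_mul_of_nonneg_left hmono (by positivity : (0:ℝ) ≤ 1 / Real.pi)
  refine le_trans (le_of_eq ?_) h5
  have hpi := Real.pi_pos
  field_simp

namespace Rt

lemma int_B1 (H : Rt ε K3 cd V0 V R) : Integrable (B1 ε K3 V0 V) ∧
    ∫ t : ℝ, B1 ε K3 V0 V t = (14 * ε * (Am V0 V * Real.exp (K3 + 1) *
      ((V.c - V0.c) / (V.c - V0.b)) ^ (K3 * ε))) * (Real.pi / (V.c - V0.c)) := by
  obtain ⟨g1, g2, g3, g4, g5, g6, g7, g8, g9⟩ := geo V0 V H.ord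
  have hx0 : 0 < V.c - V0.c := by linarith
  obtain ⟨p1, p2⟩ := phi_int _ hx0
  constructor
  · exact (p1.comp_sub_left V0.a).const_mul _
  · unfold B1
    rw [integral_const_mul]
    congr 1
    rw [← p2]
    exact integral_sub_left_eq_self (fun d : ℝ => 1 / (Real.sqrt ((V.c - V0.c) * d) * ((V.c - V0.c) + d))) volume V0.a

lemma int_B2 (H : Rt ε K3 cd V0 V R) : Integrable (B2 cd V0 R) ∧
    ∫ t : ℝ, B2 cd V0 R t = (3 / (R / 16) ^ 2) * (Real.pi * Yf cd V0.c (R / 16)) := by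
  obtain ⟨g1, g2, g3, g4, g5, g6, g7, g8, g9⟩ := geo V0 V H.ord
  have hR := H.hR
  have hR0 : 0 < R := by linarith
  obtain ⟨p1, p2⟩ := H.pois V0.c (R / 16) (by linarith)
  constructor
  · exact p1.const_mul _
  · unfold B2
    rw [integral_const_mul, p2]
    have hpi := Real.pi_pos
    field_simp

/-- the value of Y high above V0 -/
lemma Yhigh (H : Rt ε K3 cd V0 V R) :
    Yf cd V0.c (R / 16) ≤ 2 * (R / 16) * (Am V0 V * Real.exp (K3 + 1) * (R / (V.c - V0.b)) ^ (K3 * ε)) := by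
  obtain ⟨g1, g2, g3, g4, g5, g6, g7, g8, g9⟩ := geo V0 V H.ord
  have hR := H.hR
  have hR0 : 0 < R := by linarith
  have hρ : 0 < R / 16 := by linarith
  have h1 := Yle cd V0.c (R / 16) V0.N
  rw [fN V0 V0.c hρ] at h1
  have h2 := H.ghigh
  have h3 : Real.sqrt (‖(V0.c : ℂ) + ((R / 16 : ℝ) : ℂ) * I - V0.a‖ * ‖(V0.c : ℂ) + ((R / 16 : ℝ) : ℂ) * I - V0.b‖) ≤
      2 * (R / 16) := by
    have n1 := nrm_le V0.c (R / 16) V0.a
    have n2 := nrm_le V0.c (R / 16) V0.b
    rw [abs_of_pos (by linarith : 0 < V0.c - V0.a), abs_of_pos hρ] at n1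
    rw [abs_of_neg (by linarith : V0.c - V0.b < 0), abs_of_pos hρ] at n2
    rw [Real.sqrt_le_left (by linarith), sq]
    apply mul_le_mul (by linarith) (by linarith) (norm_nonneg _) (by linarith)
  refine h1.trans ?_
  calc _ ≤ ‖V0.g ((V0.c : ℂ) + ((R / 16 : ℝ) : ℂ) * I)‖ * (2 * (R / 16)) :=
        mul_le_mul_of_nonneg_left h3 (norm_nonneg _)
    _ ≤ (Am V0 V * Real.exp (K3 + 1) * (R / (V.c - V0.b)) ^ (K3 * ε)) * (2 * (R / 16)) :=
        mul_le_mul_of_nonneg_right h2 (by linarith)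
    _ = _ := by ring

/-- the lower bound for kk before simplification -/
lemma kk_low (H : Rt ε K3 cd V0 V R) :
    (V.N - V0.N) * (V.c - V0.c) - (Real.sqrt ((V.c - V0.a) * (V.c - V0.b))) ^ 3 *
      ((Am V0 V * Real.exp (K3 + 1)) * (14 * ε * ((V.c - V0.c) / (V.c - V0.b)) ^ (K3 * ε) / (V.c - V0.c) +
        96 / R * (R / (V.c - V0.b)) ^ (K3 * ε))) ≤
      V.kk * ((V.c - V0.a) * (V.c - V0.b)) := by
  obtain ⟨g1, g2, g3, g4, g5, g6, g7, g8, g9⟩ := geo V0 V H.ord
  have hR := H.hR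
  have hR0 : 0 < R := by linarith
  have hd := H.dNpos
  have hav := av_lower V0 V H.ord
  obtain ⟨b1, b2⟩ := H.int_B1
  obtain ⟨b3, b4⟩ := H.int_B2
  have hY := H.Yhigh
  have hint : -(∫ t : ℝ, (B1 ε K3 V0 V t + B2 cd V0 R t)) ≤
      ∫ t : ℝ, vf cd t / (V0.q t * V.q t * (t - V.c)) := by
    rw [← integral_neg]
    exact integral_mono (b1.add b3).neg H.p5i (fun t => H.pw t)
  rw [integral_add b1 b3, b2, b4] at hint
  set x := V.c - V0.c with hx
  set y := V.c - V0.b with hy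
  have hx0 : 0 < x := by linarith
  have hy0 : 0 < y := by linarith
  have hux : 0 < V.c - V0.a := by linarith
  set q := Real.sqrt ((V.c - V0.a) * y) with hq
  have hq0 : 0 < q := Real.sqrt_pos.mpr (by positivity)
  have hq2 : q ^ 2 = (V.c - V0.a) * y := Real.sq_sqrt (by positivity)
  set E := Am V0 V * Real.exp (K3 + 1) with hE
  set S1 := (x / y) ^ (K3 * ε) with hS1
  set S2 := (R / y) ^ (K3 * ε) with hS2
  have hpi := Real.pi_pos
  have hint2 : -(E * (14 * ε * S1 / x + 96 / R * S2)) ≤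
      (1 / Real.pi) * ∫ t : ℝ, vf cd t / (V0.q t * V.q t * (t - V.c)) := by
    have h1 := mul_le_mul_of_nonneg_left hint (by positivity : (0:ℝ) ≤ 1 / Real.pi)
    refine le_trans ?_ h1
    have h2 : 3 / (R / 16) ^ 2 * (Real.pi * Yf cd V0.c (R / 16)) ≤
        3 / (R / 16) ^ 2 * (Real.pi * (2 * (R / 16) * (E * S2))) := by
      apply mul_le_mul_of_nonneg_left _ (by positivity)
      exact mul_le_mul_of_nonneg_left hY hpi.le
    have h3 : (1 / Real.pi) * (-(14 * ε * (E * S1) * (Real.pi / x) +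
        3 / (R / 16) ^ 2 * (Real.pi * (2 * (R / 16) * (E * S2))))) = -(E * (14 * ε * S1 / x + 96 / R * S2)) := by
      field_simp
      ring
    rw [← h3]
    apply mul_le_mul_of_nonneg_left _ (by positivity)
    linarith
  have hqc : V0.q V.c = q := by
    show qr V0.a V0.b V.c = _
    unfold qr
    rw [if_pos (by linarith)]
  have h5 := H.p5
  rw [hqc] at h5
  have h6 : q * ((V.N - V0.N) * (x / q ^ 3) + -(E * (14 * ε * S1 / x + 96 / R * S2))) ≤ V.kk := by
    rw [h5]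
    apply mul_le_mul_of_nonneg_left _ hq0.le
    have : (V.N - V0.N) * (x / q ^ 3) ≤ (V.N - V0.N) * V0.av (fun t => 1 / ((t - V.c) * V.q t)) :=
      mul_le_mul_of_nonneg_left hav (by linarith)
    linarith
  rw [← hq2]
  have h7 := mul_le_mul_of_nonneg_right h6 (by positivity : 0 ≤ q ^ 2)
  refine le_trans (le_of_eq ?_) h7
  field_simp
  ring

/-- the third claim -/
lemma third (H : Rt ε K3 cd V0 V R) :
    (1 - 220 * Real.exp (5 * K3 + 1) * (ε + ((V.c - V0.c) / R) ^ (9 / 10 : ℝ))) * (V.N - V0.N) * (V.c - V0.c) ≤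
      V.kk * ((V.c - V0.c) ^ 2 - (V0.s / 2) ^ 2) := by
  obtain ⟨g1, g2, g3, g4, g5, g6, g7, g8, g9⟩ := geo V0 V H.ord
  have e0 := H.eps0
  have e1 := H.eps1
  have hR := H.hR
  have hK1 := H.K1
  have heK := H.eK
  have hR0 : 0 < R := by linarith
  have hd := H.dNpos
  have hk := H.kk_low
  have ha : Am V0 V * Real.sqrt ((V.c - V0.a) * (V.c - V0.b)) ≤
      11 / 10 * Real.exp (4 * K3) * (V.N - V0.N) := H.amp
  have hA := H.ampos
  have hid : (V.c - V0.c) ^ 2 - (V0.s / 2) ^ 2 = (V.c - V0.a) * (V.c - V0.b) := by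
    rw [g4, g5]; ring
  rw [hid]
  refine le_trans ?_ hk
  set x := V.c - V0.c with hx
  set y := V.c - V0.b with hy
  have hx0 : 0 < x := by linarith
  have hy0 : 0 < y := by linarith
  have hyx : y ≤ x := by linarith
  have hux : 0 < V.c - V0.a := by linarith
  have hux2 : V.c - V0.a ≤ 2 * x := by linarith
  set q := Real.sqrt ((V.c - V0.a) * y) with hq
  have hq0 : 0 < q := Real.sqrt_pos.mpr (by positivity)
  have hq2 : q ^ 2 = (V.c - V0.a) * y := Real.sq_sqrt (by positivity)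
  have hq3 : q ^ 2 ≤ 2 * x * y := by
    rw [hq2]; exact mul_le_mul_of_nonneg_right hux2 hy0.le
  have hη0 : 0 ≤ K3 * ε := by positivity
  have s1 : y * (x / y) ^ (K3 * ε) ≤ x := by
    have h1 : (x / y) ^ (K3 * ε) ≤ (x / y) ^ (1 : ℝ) :=
      Real.rpow_le_rpow_of_exponent_le (by rw [one_le_div hy0]; exact hyx) (by linarith)
    rw [Real.rpow_one] at h1
    calc y * (x / y) ^ (K3 * ε) ≤ y * (x / y) := mul_le_mul_of_nonneg_left h1 hy0.le
      _ = x := by field_simp
  have hyR : y / R ≤ x / R := by gcongr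
  have s2 : (y / R) * (R / y) ^ (K3 * ε) ≤ (x / R) ^ (9 / 10 : ℝ) := by
    have h1 : (R / y) ^ (K3 * ε) ≤ (R / y) ^ (1 / 10 : ℝ) :=
      Real.rpow_le_rpow_of_exponent_le (by rw [one_le_div hy0]; linarith) (by linarith)
    have h2 : (R / y) ^ (1 / 10 : ℝ) = (y / R) ^ (-(1 / 10) : ℝ) := by
      rw [Real.rpow_neg (by positivity), ← Real.inv_rpow (by positivity), inv_div]
    have h3 : (y / R) * (y / R) ^ (-(1 / 10) : ℝ) = (y / R) ^ (9 / 10 : ℝ) := by
      nth_rewrite 1 [← Real.rpow_one (y / R)]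
      rw [← Real.rpow_add (by positivity)]
      norm_num
    calc (y / R) * (R / y) ^ (K3 * ε) ≤ (y / R) * (R / y) ^ (1 / 10 : ℝ) :=
          mul_le_mul_of_nonneg_left h1 (by positivity)
      _ = (y / R) ^ (9 / 10 : ℝ) := by rw [h2, h3]
      _ ≤ (x / R) ^ (9 / 10 : ℝ) := Real.rpow_le_rpow (by positivity) hyR (by norm_num)
  set S1 := (x / y) ^ (K3 * ε) with hS1
  set S2 := (R / y) ^ (K3 * ε) with hS2
  have hS10 : 0 ≤ S1 := by positivity
  have hS20 : 0 ≤ S2 := by positivity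
  set T := (x / R) ^ (9 / 10 : ℝ) with hT
  have hT0 : 0 ≤ T := by positivity
  have hbr0 : 0 ≤ 14 * ε * S1 / x + 96 / R * S2 := by positivity
  -- the bracket
  have hbr : q ^ 2 * (14 * ε * S1 / x + 96 / R * S2) ≤ 192 * x * (ε + T) := by
    have a1 : q ^ 2 * (14 * ε * S1 / x + 96 / R * S2) ≤ 2 * x * y * (14 * ε * S1 / x + 96 / R * S2) :=
      mul_le_mul_of_nonneg_right hq3 hbr0
    have a2 : 2 * x * y * (14 * ε * S1 / x + 96 / R * S2) = 28 * ε * (y * S1) + 192 * x * ((y / R) * S2) := by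
      field_simp
      ring
    have a3 : 28 * ε * (y * S1) ≤ 28 * ε * x := mul_le_mul_of_nonneg_left s1 (by positivity)
    have a4 : 192 * x * ((y / R) * S2) ≤ 192 * x * T := mul_le_mul_of_nonneg_left s2 (by positivity)
    have a5 : 0 < ε * x := mul_pos e0 hx0
    linarith
  have hexp : Real.exp (4 * K3) * Real.exp (K3 + 1) = Real.exp (5 * K3 + 1) := by
    rw [← Real.exp_add]; congr 1; ring
  have hE1 := Real.exp_pos (5 * K3 + 1)
  have hE2 := Real.exp_pos (K3 + 1)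
  have hfin : q ^ 3 * (Am V0 V * Real.exp (K3 + 1) * (14 * ε * S1 / x + 96 / R * S2)) ≤
      220 * Real.exp (5 * K3 + 1) * (ε + T) * ((V.N - V0.N) * x) := by
    have c1 : q ^ 3 * (Am V0 V * Real.exp (K3 + 1) * (14 * ε * S1 / x + 96 / R * S2)) =
        (Am V0 V * q) * Real.exp (K3 + 1) * (q ^ 2 * (14 * ε * S1 / x + 96 / R * S2)) := by ring
    rw [c1]
    have c2 : (Am V0 V * q) * Real.exp (K3 + 1) ≤ (11 / 10 * Real.exp (4 * K3) * (V.N - V0.N)) * Real.exp (K3 + 1) :=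
      mul_le_mul_of_nonneg_right ha hE2.le
    have c3 : (11 / 10 * Real.exp (4 * K3) * (V.N - V0.N)) * Real.exp (K3 + 1) =
        11 / 10 * (V.N - V0.N) * Real.exp (5 * K3 + 1) := by rw [← hexp]; ring
    rw [c3] at c2
    have hdn : 0 < V.N - V0.N := by linarith
    calc (Am V0 V * q) * Real.exp (K3 + 1) * (q ^ 2 * (14 * ε * S1 / x + 96 / R * S2))
        ≤ (11 / 10 * (V.N - V0.N) * Real.exp (5 * K3 + 1)) * (192 * x * (ε + T)) :=
          mul_le_mul c2 hbr (by positivity) (by positivity)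
      _ = (1056 / 5) * (Real.exp (5 * K3 + 1) * (ε + T) * ((V.N - V0.N) * x)) := by ring
      _ ≤ 220 * (Real.exp (5 * K3 + 1) * (ε + T) * ((V.N - V0.N) * x)) := by
          apply mul_le_mul_of_nonneg_right (by norm_num) (by positivity)
      _ = _ := by ring
  linarith

end Rt

end

end

end Pool.Agent.Helper37.CV.Q7
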